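import Pool.Agent.helper22.RG9.Spec3

/-!
# Project rg9 (MP_a2a22c_al), row ANL: sums of nil algebras
-/

set_option autoImplicit false

namespace Pool.Agent.RG9

open Matrix Pool.Agent.H48SL Pool.Agent.UG

/-- the filtration -/
def ANL_V {n : ℕ} (𝔟 : Submodule ℚ (MQ n)) : ℕ → Submodule ℚ (Fin n → ℚ)
  | 0 => ⊤
  | i + 1 => Submodule.span ℚ {u | ∃ B ∈ 𝔟, ∃ v ∈ ANL_V 𝔟 i, u = B *ᵥ v}

theorem ANL_b {n : ℕ} {𝔟 : Submodule ℚ (MQ n)} (i : ℕ) {B : MQ n} (hB : B ∈ 𝔟) {v : Fin n → ℚ} (hv : v ∈ ANL_V 𝔟 i) :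
    B *ᵥ v ∈ ANL_V 𝔟 (i + 1) := Submodule.subset_span ⟨B, hB, v, hv, rfl⟩

theorem ANL_c {n : ℕ} {𝔟 𝔠 : Submodule ℚ (MQ n)} (h : ∀ C ∈ 𝔠, ∀ B ∈ 𝔟, C * B - B * C ∈ 𝔟) (i : ℕ) :
    ∀ C ∈ 𝔠, ∀ v ∈ ANL_V 𝔟 i, C *ᵥ v ∈ ANL_V 𝔟 i := by
  induction i with
  | zero => exact fun C _ v _ => Submodule.mem_top
  | succ i ih =>
    intro C hC v hv
    change v ∈ Submodule.span ℚ {u | ∃ B ∈ 𝔟, ∃ v ∈ ANL_V 𝔟 i, u = B *ᵥ v} at hv
    induction hv using Submodule.span_induction with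
    | mem u hu =>
      obtain ⟨B, hB, w, hw, rfl⟩ := hu
      have e : C *ᵥ (B *ᵥ w) = B *ᵥ (C *ᵥ w) + (C * B - B * C) *ᵥ w := by
        rw [Matrix.sub_mulVec, Matrix.mulVec_mulVec, Matrix.mulVec_mulVec]
        abel
      rw [e]
      exact Submodule.add_mem _ (ANL_b i hB (ih C hC w hw)) (ANL_b i (h C hC B hB) hw)
    | zero =>
      rw [Matrix.mulVec_zero]
      exact Submodule.zero_mem _
    | add u w _ _ hu hw =>
      rw [Matrix.mulVec_add]
      exact Submodule.add_mem _ hu hw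
    | smul c u _ hu =>
      rw [Matrix.mulVec_smul]
      exact Submodule.smul_mem _ _ hu

theorem ANL_mono {n : ℕ} {𝔟 : Submodule ℚ (MQ n)} (i : ℕ) : ANL_V 𝔟 (i + 1) ≤ ANL_V 𝔟 i := by
  induction i with
  | zero => exact le_top
  | succ i ih =>
    refine Submodule.span_le.2 ?_
    rintro u ⟨B, hB, v, hv, rfl⟩
    exact ANL_b i hB (ih hv)

theorem ANL_zero {n M : ℕ} {𝔟 : Submodule ℚ (MQ n)} (hM : ∀ l : List (MQ n), (∀ X ∈ l, X ∈ 𝔟) → M ≤ l.length → l.prod = 0) (i : ℕ) :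
    ∀ l : List (MQ n), (∀ X ∈ l, X ∈ 𝔟) → M ≤ l.length + i → ∀ v ∈ ANL_V 𝔟 i, l.prod *ᵥ v = 0 := by
  induction i with
  | zero =>
    intro l hl hlen v _
    rw [hM l hl hlen, Matrix.zero_mulVec]
  | succ i ih =>
    intro l hl hlen v hv
    change v ∈ Submodule.span ℚ {u | ∃ B ∈ 𝔟, ∃ v ∈ ANL_V 𝔟 i, u = B *ᵥ v} at hv
    induction hv using Submodule.span_induction with
    | mem u hu =>
      obtain ⟨B, hB, w, hw, rfl⟩ := hu
      have h1 := ih (l ++ [B]) (fun X hX => by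
        rcases List.mem_append.1 hX with hX | hX
        · exact hl X hX
        · rw [List.mem_singleton.1 hX]
          exact hB) (by
        rw [List.length_append, List.length_singleton]
        omega) w hw
      rw [List.prod_append, List.prod_singleton] at h1
      rw [Matrix.mulVec_mulVec]
      exact h1
    | zero => rw [Matrix.mulVec_zero]
    | add u w _ _ hu hw => rw [Matrix.mulVec_add, hu, hw, add_zero]
    | smul c u _ hu => rw [Matrix.mulVec_smul, hu, smul_zero]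

theorem ANL_step {n N : ℕ} {𝔟 𝔠 : Submodule ℚ (MQ n)} (h : ∀ C ∈ 𝔠, ∀ B ∈ 𝔟, C * B - B * C ∈ 𝔟)
    (hN : ∀ l : List (MQ n), (∀ X ∈ l, X ∈ 𝔠) → N ≤ l.length → l.prod = 0) (i : ℕ) (l : List (MQ n)) (hl : ∀ X ∈ l, X ∈ 𝔟 ⊔ 𝔠)
    (hlen : N ≤ l.length) (v : Fin n → ℚ) (hv : v ∈ ANL_V 𝔟 i) : l.prod *ᵥ v ∈ ANL_V 𝔟 (i + 1) := by
  have key : ∀ l : List (MQ n), (∀ X ∈ l, X ∈ 𝔟 ⊔ 𝔠) → ∃ l' : List (MQ n), (∀ X ∈ l', X ∈ 𝔠) ∧ l'.length = l.length ∧
      l'.prod *ᵥ v ∈ ANL_V 𝔟 i ∧ l.prod *ᵥ v - l'.prod *ᵥ v ∈ ANL_V 𝔟 (i + 1) := by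
    intro l
    induction l with
    | nil =>
      intro _
      refine ⟨[], by simp, rfl, ?_, ?_⟩
      · rw [List.prod_nil, Matrix.one_mulVec]
        exact hv
      · rw [sub_self]
        exact Submodule.zero_mem _
    | cons x l ih =>
      intro hl
      obtain ⟨l', hl', hlen', h1, h2⟩ := ih (fun X hX => hl X (List.mem_cons_of_mem _ hX))
      obtain ⟨B, hB, C, hC, rfl⟩ := Submodule.mem_sup.1 (hl x List.mem_cons_self)
      refine ⟨C :: l', ?_, ?_, ?_, ?_⟩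
      · intro X hX
        rcases List.mem_cons.1 hX with rfl | hX
        · exact hC
        · exact hl' X hX
      · rw [List.length_cons, List.length_cons, hlen']
      · rw [List.prod_cons, ← Matrix.mulVec_mulVec]
        exact ANL_c h i C hC _ h1
      · rw [List.prod_cons, List.prod_cons, ← Matrix.mulVec_mulVec, ← Matrix.mulVec_mulVec, Matrix.add_mulVec]
        have h3 : l.prod *ᵥ v ∈ ANL_V 𝔟 i := by
          have h4 := Submodule.add_mem _ (ANL_mono i h2) h1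
          rwa [sub_add_cancel] at h4
        have e : B *ᵥ (l.prod *ᵥ v) + C *ᵥ (l.prod *ᵥ v) - C *ᵥ (l'.prod *ᵥ v) =
            B *ᵥ (l.prod *ᵥ v) + C *ᵥ (l.prod *ᵥ v - l'.prod *ᵥ v) := by
          rw [Matrix.mulVec_sub, add_sub_assoc]
        rw [e]
        exact Submodule.add_mem _ (ANL_b i hB h3) (ANL_c h (i + 1) C hC _ h2)
  obtain ⟨l', hl', hlen', -, h2⟩ := key l hl
  have h3 : l'.prod = 0 := hN l' hl' (by rw [hlen']; exact hlen)
  rw [h3, Matrix.zero_mulVec, sub_zero] at h2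
  exact h2

theorem ANL : ANL_stmt := by
  intro n 𝔟 𝔠 ⟨M, hM⟩ ⟨N, hN⟩ h
  refine ⟨N * M, fun l hl hlen => ?_⟩
  have key : ∀ j : ℕ, ∀ l : List (MQ n), (∀ X ∈ l, X ∈ 𝔟 ⊔ 𝔠) → N * j ≤ l.length → ∀ v : Fin n → ℚ, l.prod *ᵥ v ∈ ANL_V 𝔟 j := by
    intro j
    induction j with
    | zero => exact fun l _ _ v => Submodule.mem_top
    | succ j ih =>
      intro l hl hlen v
      rw [Nat.mul_succ] at hlen
      have e : l.prod *ᵥ v = (l.take N).prod *ᵥ ((l.drop N).prod *ᵥ v) := by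
        rw [Matrix.mulVec_mulVec, ← List.prod_append, List.take_append_drop]
      rw [e]
      refine ANL_step h hN j (l.take N) (fun X hX => hl X (List.mem_of_mem_take hX)) ?_ _
        (ih (l.drop N) (fun X hX => hl X (List.mem_of_mem_drop hX)) ?_ v)
      · rw [List.length_take]
        omega
      · rw [List.length_drop]
        omega
  have h0 : ∀ v : Fin n → ℚ, l.prod *ᵥ v = 0 := by
    intro v
    have h1 := key M l hl hlen v
    have h2 := ANL_zero hM M [] (by simp) (by simp) _ h1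
    rwa [List.prod_nil, Matrix.one_mulVec] at h2
  ext i j
  have h1 := congrFun (h0 (Pi.single j 1)) i
  rw [Matrix.mulVec_single_one] at h1
  exact h1

end Pool.Agent.RG9
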