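import Pool.Agent.helper22.RG9.Core
import Pool.Agent.helper43.RG9.QUN
import Pool.Agent.helper26.RG9.LGF
import Pool.Agent.helper79.RG9.GRU
import Pool.Agent.helper33.RG9.ABG
import Pool.Agent.helper6.RG9.BRA
import Pool.Agent.helper72.RG9.BR2
import Pool.Agent.helper59.RG9.CJG
import Pool.Agent.helper98.RG9.INF
import Pool.Agent.helper21.RG9.LIE
import Pool.Agent.helper44.RG9.NRM
import Pool.Agent.helper72.RG9.ZAR
import Pool.Agent.helper54.RG9.ADI
import Pool.Agent.helper96.RG9.NCM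
import Pool.Agent.helper27.RG9.CNT
import Pool.Agent.helper97.RG9.LAT
import Pool.Agent.helper34.RG9.CNV
import Pool.Agent.helper81.UH.Asm

/-!
# Project rg9 (MP_a2a22c_al): assembly
-/

set_option autoImplicit false

namespace Pool.Agent.RG9

open Matrix Pool.Agent.H48SL Pool.Agent.UG

theorem tGRU : GRU_stmt := GRU QUN LGF

theorem tABG : ABG_stmt := ABG LGF

theorem tBR2 : BR2_stmt := BR2 tGRU LGF tABG (BRA LGF)

theorem tCRE : CRE_stmt :=
  CRE LGF tGRU tBR2 INF (NRM tBR2 (CJG tGRU LGF) LIE) ZAR ADI (CNT LIE) (LAT tGRU LGF tABG NCM) Pool.Agent.UH.tFIN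

end Pool.Agent.RG9
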