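import Pool.Agent.helper22.RG9.Spec2
import Pool.Agent.helper81.UH.Spec

/-!
# Project rg9 (MP_a2a22c_al), row CR2: the assembly of the core, second part
-/

set_option autoImplicit false

namespace Pool.Agent.RG9

open Matrix Pool.Agent.H48SL Pool.Agent.UG

theorem CR2 (hLGF : LGF_stmt) (hGR2 : GR2_stmt) (hBR3 : BR3_stmt) (hLA2 : LA2_stmt) (hIMG : IMG_stmt) (hWGI : WGI_stmt)
    (hNR2 : NR2_stmt) (hCN2 : CN2_stmt) (hPRK : PRK_stmt) (hZAR : ZAR_stmt) (hADI : ADI_stmt) (hCNT : CNT_stmt)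
    (hFIN : Pool.Agent.UH.FIN_stmt) : CR2_stmt := by
  intro n m N k hn hm hN hk D _ X hX htop K hK φ hZ hinf
  obtain ⟨i0, j0, hij, x, hx, hx1⟩ := hinf
  obtain ⟨n', rfl⟩ : ∃ n', n = n' + 1 := ⟨n - 1, by omega⟩
  obtain ⟨hPR, hcj⟩ := hPRK D (n' + 1) k K hK φ
  obtain ⟨F, hF⟩ : ∃ F : D → SLZ (n' + 1), F = fun y => φ ⟨y ^ k, hK y⟩ := ⟨_, rfl⟩
  rw [← hF] at hPR
  have hFa : ∀ y, F y = φ ⟨y ^ k, hK y⟩ := fun y => by rw [hF]
  have hcj' : ∀ (δ : K) (y : D), F ((δ : D) * y * (δ : D)⁻¹) = φ δ * F y * (φ δ)⁻¹ := fun δ y => by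
    rw [hFa, hFa]
    exact hcj δ y
  obtain ⟨-, him, hPRd⟩ := hIMG D (n' + 1) k F hPR
  have hab : ∀ i j, i ≠ j → ∀ x ∈ X i j, ∀ y ∈ X i j, x * y = y * x := fun i j hij x hx y hy =>
    hX.comm i j i j hij hij hij.symm hij x hx y hy
  have hW : WG (N * k) (fun i j => im F (X i j)) := hWGI D (n' + 1) m N k hm F hPR X hX
  have hNk : 1 ≤ N * k := Nat.mul_pos hN hk
  obtain ⟨h1, -, -, -, -, h6, h7, h8⟩ := hLGF (n' + 1)
  have hB := hBR3 (n' + 1) m (N * k) hm hNk _ hW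
  have hFx : F (x : D) = φ x ^ k := by
    rw [hFa, ← map_pow]
    rfl
  have hmem : F (x : D) ∈ im F (X i0 j0) := Subgroup.subset_closure ⟨x, hx, rfl⟩
  have hu := hGR2 (n' + 1) m (N * k) hm _ hW i0 j0 hij _ hmem
  have hne : F (x : D) ^ (N * k * (n' + 1).factorial) ≠ 1 := by
    rw [hFx, ← pow_mul]
    exact hx1
  have hN0 : lg (F (x : D) ^ (N * k * (n' + 1).factorial)) ≠ 0 := by
    intro h0
    exact hne (h6 _ _ hu h7 (h0.trans h8.symm))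
  have hNL : lg (F (x : D) ^ (N * k * (n' + 1).factorial)) ∈ LE (N * k * (n' + 1).factorial) (im F (X i0 j0)) :=
    Submodule.subset_span ⟨_, hmem, rfl⟩
  have hNS : lg (F (x : D) ^ (N * k * (n' + 1).factorial)) ∈ SS (fun i j => LE (N * k * (n' + 1).factorial) (im F (X i j))) :=
    Submodule.subset_span (Or.inl ⟨i0, j0, hij, hNL⟩)
  have hst := hZAR (n' + 1) φ.range hZ (SS (fun i j => LE (N * k * (n' + 1).factorial) (im F (X i j)))) (by
    rintro _ ⟨δ, rfl⟩ Z hZ'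
    refine hNR2 D (n' + 1) m N k hm hN hk F hPR X hX (δ : D) (by rw [htop]; exact Subgroup.mem_top _) ?_
    refine hCN2 (n' + 1) m _ (fun i j => im F (X i j)) (fun i j => im (fun y => F ((δ : D) * y * (δ : D)⁻¹)) (X i j)) (φ δ) ?_ Z hZ'
    intro i j hij' g hg
    refine ⟨hGR2 (n' + 1) m (N * k) hm _ hW i j hij' g hg, ?_⟩
    obtain ⟨y, hy, rfl⟩ := him (X i j) (hab i j hij') g hg
    rw [← hcj' δ y]
    exact Subgroup.subset_closure ⟨y, hy, rfl⟩)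
  have htr := hADI (n' + 1) hn _ hst _ hNS (h1 _ hu).1 hN0
  obtain ⟨hrow, A, hA, ⟨M, hcol⟩, hlat, hlog⟩ := hLA2 (n' + 1) m (N * k) hm hNk _ hW i0
  have hdim := hCNT (n' + 1) m (by omega) hm (fun i j => LE (N * k * (n' + 1).factorial) (im F (X i j))) i0 hB htr hrow
    ⟨j0, hij, fun h0 => by
      rw [h0, Submodule.mem_bot] at hNL
      exact hN0 hNL⟩
  refine hFIN n' M A φ.range (colS (fun i j => LE (N * k * (n' + 1).factorial) (im F (X i j))) i0) (by omega) hZ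
    ⟨hcol, hlat, hlog⟩ (hA.trans ?_) hdim
  rw [gd, Subgroup.closure_le]
  rintro g ⟨i, j, hij', hg⟩
  have h9 : im F (X i j) ≤ φ.range := by
    rw [im, Subgroup.closure_le]
    rintro _ ⟨y, -, rfl⟩
    rw [hFa]
    exact ⟨_, rfl⟩
  exact h9 hg

end Pool.Agent.RG9
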