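import Pool.Agent.helper22.RG9.Core2

/-!
# Project rg9 (MP_a2a22c_al): elementary groups over arbitrary rings
-/

set_option autoImplicit false

namespace Pool.Agent.RG9

open Matrix Pool.Agent.H48SL Pool.Agent.UG

theorem EL_mm0 {m : ℕ} {R : Type} [Ring R] {i j k l : Fin m} (h : j ≠ k) (r s : R) :
    Matrix.single i j r * Matrix.single k l s = 0 := Matrix.single_mul_single_of_ne _ _ _ _ h _

theorem EL_mm {m : ℕ} {R : Type} [Ring R] {i j k : Fin m} (r s : R) :
    Matrix.single i j r * Matrix.single j k s = Matrix.single i k (r * s) := Matrix.single_mul_single_same _ _ _ _ _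

theorem EL_add {m : ℕ} {R : Type} [Ring R] {i j : Fin m} (hij : i ≠ j) (r s : R) :
    (1 + Matrix.single i j r) * (1 + Matrix.single i j s) = 1 + Matrix.single i j (r + s) := by
  rw [mul_add, mul_one, add_mul, one_mul, EL_mm0 hij.symm, add_zero, Matrix.single_add, add_assoc]

/-- elementary matrices -/
def EL_u {m : ℕ} {R : Type} [Ring R] (i j : Fin m) (hij : i ≠ j) (r : R) : (Matrix (Fin m) (Fin m) R)ˣ where
  val := 1 + Matrix.single i j r
  inv := 1 + Matrix.single i j (-r)
  val_inv := by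
    rw [EL_add hij, add_neg_cancel, Matrix.single_zero, add_zero]
  inv_val := by
    rw [EL_add hij, neg_add_cancel, Matrix.single_zero, add_zero]

/-- the elementary group -/
def EL (m : ℕ) (R : Type) [Ring R] : Subgroup (Matrix (Fin m) (Fin m) R)ˣ :=
  Subgroup.closure {u | ∃ (i j : Fin m) (r : R), i ≠ j ∧ (u : Matrix (Fin m) (Fin m) R) = 1 + Matrix.single i j r}

theorem EL_mem {m : ℕ} {R : Type} [Ring R] (i j : Fin m) (hij : i ≠ j) (r : R) : EL_u i j hij r ∈ EL m R :=
  Subgroup.subset_closure ⟨i, j, r, hij, rfl⟩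

/-- the root elements -/
noncomputable def EL_e (m : ℕ) (R : Type) [Ring R] (i j : Fin m) (r : R) : EL m R := by
  classical
  exact if h : i ≠ j then ⟨EL_u i j h r, EL_mem i j h r⟩ else 1

theorem EL_val {m : ℕ} {R : Type} [Ring R] {i j : Fin m} (hij : i ≠ j) (r : R) :
    ((EL_e m R i j r : (Matrix (Fin m) (Fin m) R)ˣ) : Matrix (Fin m) (Fin m) R) = 1 + Matrix.single i j r := by
  rw [EL_e, dif_pos hij]
  rfl

theorem EL_inv {m : ℕ} {R : Type} [Ring R] {i j : Fin m} (hij : i ≠ j) (r : R) :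
    (((EL_e m R i j r)⁻¹ : EL m R) : (Matrix (Fin m) (Fin m) R)ˣ) = EL_u i j hij (-r) := by
  rw [EL_e, dif_pos hij]
  apply Units.ext
  rfl

theorem EL_ext {m : ℕ} {R : Type} [Ring R] {a b : EL m R} (h : ((a : (Matrix (Fin m) (Fin m) R)ˣ) : Matrix (Fin m) (Fin m) R) =
    ((b : (Matrix (Fin m) (Fin m) R)ˣ) : Matrix (Fin m) (Fin m) R)) : a = b := Subtype.ext (Units.ext h)

theorem EL_stg (m : ℕ) (R : Type) [Ring R] : Stg (EL_e m R) := by
  constructor
  · intro i j r s hij
    apply EL_ext
    rw [Subgroup.coe_mul, Units.val_mul, EL_val hij, EL_val hij, EL_val hij, EL_add hij]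
  · intro i j k l r s hij hkl hjk hil
    apply EL_ext
    rw [Subgroup.coe_mul, Subgroup.coe_mul, Units.val_mul, Units.val_mul, EL_val hij, EL_val hkl]
    have e1 : (1 + Matrix.single i j r) * (1 + Matrix.single k l s) = 1 + Matrix.single i j r + Matrix.single k l s := by
      rw [mul_add, mul_one, add_mul, one_mul, EL_mm0 hjk, add_zero]
    have e2 : (1 + Matrix.single k l s) * (1 + Matrix.single i j r) = 1 + Matrix.single k l s + Matrix.single i j r := by
      rw [mul_add, mul_one, add_mul, one_mul, EL_mm0 hil.symm, add_zero]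
    rw [e1, e2]
    abel
  · intro i j k r s hij hjk hik
    have h1 : EL_e m R i j r * EL_e m R j k s = EL_e m R i k (r * s) * (EL_e m R j k s * EL_e m R i j r) := by
      apply EL_ext
      simp only [Subgroup.coe_mul, Units.val_mul]
      rw [EL_val hij, EL_val hjk, EL_val hik]
      have e1 : (1 + Matrix.single i j r) * (1 + Matrix.single j k s) =
          1 + Matrix.single j k s + Matrix.single i j r + Matrix.single i k (r * s) := by
        rw [mul_add, mul_one, add_mul, one_mul, EL_mm]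
        abel
      have e2 : (1 + Matrix.single j k s) * (1 + Matrix.single i j r) =
          1 + Matrix.single j k s + Matrix.single i j r := by
        rw [mul_add, mul_one, add_mul, one_mul, EL_mm0 hik.symm]
        abel
      rw [e1, e2, add_mul, one_mul, mul_add, mul_add, mul_one, EL_mm0 hjk.symm, EL_mm0 hik.symm]
      abel
    rw [h1]
    group

theorem EL_top (m : ℕ) (R : Type) [Ring R] : gd (Core_X (EL_stg m R)) = ⊤ := by
  rw [Core_Sgd, eq_top_iff]
  rintro ⟨g, hg⟩ -
  have key : ∀ g ∈ EL m R, ∀ h : g ∈ EL m R, (⟨g, h⟩ : EL m R) ∈ Subgroup.closure {g | ∃ i j r, i ≠ j ∧ g = EL_e m R i j r} := by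
    intro g hg
    rw [EL] at hg
    induction hg using Subgroup.closure_induction with
    | mem g hg =>
      intro h
      obtain ⟨i, j, r, hij, e⟩ := hg
      refine Subgroup.subset_closure ⟨i, j, r, hij, EL_ext ?_⟩
      rw [EL_val hij]
      exact e
    | one =>
      intro h
      exact one_mem _
    | mul a b ha hb iha ihb =>
      intro h
      exact mul_mem (iha ha) (ihb hb)
    | inv a ha iha =>
      intro h
      exact inv_mem (iha ha)
  exact key g hg hg

theorem EL_inj {m : ℕ} {R : Type} [Ring R] {i j : Fin m} (hij : i ≠ j) : Function.Injective (EL_e m R i j) := by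
  intro r s h
  have h1 := congrArg (fun g : EL m R => ((g : (Matrix (Fin m) (Fin m) R)ˣ) : Matrix (Fin m) (Fin m) R) i j) h
  simp only [EL_val hij, Matrix.add_apply, Matrix.single_apply_same] at h1
  exact add_left_cancel h1

/-- groups commensurable with an elementary group -/
theorem EL_comm (hINF : INF_stmt) (hGR2 : GR2_stmt) (hWGI : WGI_stmt) (hPRK : PRK_stmt) (hCR2 : CR2_stmt)
    {n : ℕ} (hn : 3 ≤ n) (Γ : Type) [Group Γ] (hfg : Group.FG Γ)
    (hrf : ∀ g : Γ, g ≠ 1 → ∃ N : Subgroup Γ, N.index ≠ 0 ∧ g ∉ N)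
    (hq : ∀ (Q : Type) [Group Q] [Finite Q], (∃ f : Γ →* Q, Function.Surjective f) ↔
      (∃ f : SpecialLinearGroup (Fin n) ℤ →* Q, Function.Surjective f))
    {m : ℕ} (hm : 3 ≤ m) (R : Type) [Ring R] (hR : Infinite R) (Δ : Subgroup (EL m R)) (hΔ : Δ.FiniteIndex)
    (Λ : Subgroup Γ) (hΛ : Λ.FiniteIndex) (e : Δ ≃* Λ) : Nonempty (Γ ≃* SpecialLinearGroup (Fin n) ℤ) := by
  obtain ⟨i, j, hij⟩ : ∃ i j : Fin m, i ≠ j := ⟨⟨0, by omega⟩, ⟨1, by omega⟩, by simp⟩
  have hr : (Λ.subtype.comp e.toMonoidHom).range = Λ := by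
    ext x
    constructor
    · rintro ⟨g, rfl⟩
      exact (e g).2
    · intro hx
      refine ⟨e.symm ⟨x, hx⟩, ?_⟩
      show ((e (e.symm ⟨x, hx⟩) : Λ) : Γ) = x
      rw [e.apply_symm_apply]
  refine Core2_B hINF hGR2 hWGI hPRK hCR2 hn Γ hfg hrf hq hm (N := 1) le_rfl (EL m R) (Core_X (EL_stg m R))
    (Core2_wg (Core_S (EL_stg m R))) (EL_top m R) Δ hΔ (Λ.subtype.comp e.toMonoidHom) ⟨i, j, hij, ?_⟩ Λ hΛ ?_
  · have hinj : Function.Injective (Λ.subtype.comp e.toMonoidHom) := Subtype.val_injective.comp e.injective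
    refine Set.Infinite.image hinj.injOn ?_
    intro hfin
    -- the root subgroup of `Δ` is finite, of finite index in the root subgroup
    have h1 : (Δ.subgroupOf (Core_X (EL_stg m R) i j)).FiniteIndex := inferInstance
    have h2 : Finite (Δ.subgroupOf (Core_X (EL_stg m R) i j)) := by
      have h3 : ((fun x : Δ => (x : EL m R)) '' {x : Δ | (x : EL m R) ∈ Core_X (EL_stg m R) i j}).Finite := hfin.image _
      have h33 := h3.to_subtype
      refine Finite.of_injective (β := ((fun x : Δ => (x : EL m R)) '' {x : Δ | (x : EL m R) ∈ Core_X (EL_stg m R) i j} : Set (EL m R)))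
        (fun x => ⟨((x : Core_X (EL_stg m R) i j) : EL m R), ⟨⟨((x : Core_X (EL_stg m R) i j) : EL m R), x.2⟩, (x : Core_X (EL_stg m R) i j).2, rfl⟩⟩) ?_
      intro x y hxy
      have h4 := congrArg Subtype.val hxy
      exact Subtype.ext (Subtype.ext h4)
    have h5 : Finite (Core_X (EL_stg m R) i j) := by
      have h6 : Finite (Core_X (EL_stg m R) i j ⧸ Δ.subgroupOf (Core_X (EL_stg m R) i j)) := Subgroup.finite_quotient_of_finiteIndex
      exact Finite.of_equiv _ (Subgroup.groupEquivQuotientProdSubgroup (s := Δ.subgroupOf (Core_X (EL_stg m R) i j))).symm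
    have h7 : Finite R := by
      refine Finite.of_injective (β := Core_X (EL_stg m R) i j) (fun r => ⟨EL_e m R i j r, Or.inl ⟨hij, r, rfl⟩⟩) ?_
      intro r s hrs
      exact EL_inj hij (congrArg Subtype.val hrs)
    exact not_finite R
  · intro g hg d hd
    rw [hr] at hd ⊢
    exact Λ.mul_mem (Λ.mul_mem hg hd) (Λ.inv_mem hg)

end Pool.Agent.RG9
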