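import Pool.Agent.helper22.RG9.Asm
import Pool.Agent.helper22.RG9.EL
import Pool.Agent.helper22.RG9.CR2
import Pool.Agent.helper22.RG9.GR2
import Pool.Agent.helper53.RG9.AB2
import Pool.Agent.helper43.RG9.BR3
import Pool.Agent.helper71.RG9.LA2
import Pool.Agent.helper51.RG9.IMG
import Pool.Agent.helper54.RG9.WGI
import Pool.Agent.helper31.RG9.CJ2
import Pool.Agent.helper75.RG9.NR2
import Pool.Agent.helper57.RG9.CN2
import Pool.Agent.helper73.RG9.PRK

/-!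
# Project rg9 (MP_a2a22c_al): assembly of the second part
-/

set_option autoImplicit false

namespace Pool.Agent.RG9

open Matrix Pool.Agent.H48SL Pool.Agent.UG

theorem tGR2 : GR2_stmt := GR2 QUN LGF

theorem tAB2 : AB2_stmt := AB2 LGF

theorem tBR3 : BR3_stmt := BR3 tGR2 LGF tAB2 (BRA LGF)

theorem tLA2 : LA2_stmt := LA2 tGR2 LGF tAB2 NCM

theorem tWGI : WGI_stmt := WGI IMG

theorem tCJ2 : CJ2_stmt := CJ2 IMG tWGI tGR2 LGF

theorem tNR2 : NR2_stmt := NR2 IMG tWGI tBR3 tCJ2 LIE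

theorem tCR2 : CR2_stmt :=
  CR2 LGF tGR2 tBR3 tLA2 IMG tWGI tNR2 (CN2 LGF) PRK ZAR ADI (CNT LIE) Pool.Agent.UH.tFIN

end Pool.Agent.RG9
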