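import Pool.Agent.helper54.UG.Basic
import Pool.Agent.helper29.UG.FIZ
import Pool.Agent.helper65.UG.NSG

/-!
# Project rg9 (MP_a2a22c_al): Zariski density of subgroups of finite index and of normalized subgroups
-/

set_option autoImplicit false

namespace Pool.Agent.RG9

open Matrix Pool.Agent.H48SL Pool.Agent.UG

theorem DEN_prod {n : ℕ} {κ : Type} (s : Finset κ) (F : κ → SLZ n → ℤ) (hF : ∀ k ∈ s, IsPoly (F k)) :
    IsPoly (fun g => ∏ k ∈ s, F k g) := by
  classical
  induction s using Finset.induction_on with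
  | empty =>
    simp only [Finset.prod_empty]
    exact H48SL.IsPoly.const 1
  | insert a s ha ih =>
    simp only [Finset.prod_insert ha]
    exact (hF a (Finset.mem_insert_self a s)).mul (ih fun k hk => hF k (Finset.mem_insert_of_mem hk))

/-- subgroups of finite index of Zariski dense subgroups are Zariski dense -/
theorem DEN_index {n : ℕ} (hn : 3 ≤ n) {H D : Subgroup (SLZ n)} (hH : ZDense H) (hi : D.relIndex H ≠ 0) : ZDense D := by
  classical
  have hfi : (D.subgroupOf H).FiniteIndex := ⟨hi⟩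
  have hfin : Finite (H ⧸ D.subgroupOf H) := Subgroup.finite_quotient_of_finiteIndex
  let r : (H ⧸ D.subgroupOf H) → SLZ n := fun q => (Quotient.out q : H)
  have key : ∀ g : SLZ n, ∃ q, (r q)⁻¹ * g ∈ Zc D := by
    intro g
    by_contra hcon
    push Not at hcon
    have h1 : ∀ q, ∃ F : SLZ n → ℤ, IsPoly F ∧ (∀ h ∈ D, F h = 0) ∧ F ((r q)⁻¹ * g) ≠ 0 := by
      intro q
      have h2 := hcon q
      rw [mem_Zc] at h2
      push Not at h2
      obtain ⟨F, h3, h4, h5⟩ := h2
      exact ⟨F, h3, h4, h5⟩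
    choose F h3 h4 h5 using h1
    have := Fintype.ofFinite (H ⧸ D.subgroupOf H)
    obtain ⟨P, hP⟩ := DEN_prod (Finset.univ : Finset (H ⧸ D.subgroupOf H)) (fun q x => F q ((r q)⁻¹ * x))
      (fun q _ => ip_mul_left (h3 q) _)
    have h6 : ∀ x : SLZ n, MvPolynomial.eval (fun y : Fin n × Fin n => (x : Matrix (Fin n) (Fin n) ℤ) y.1 y.2) P = 0 := by
      intro x
      refine hH P (fun h hh => ?_) x
      rw [← hP h]
      refine Finset.prod_eq_zero (Finset.mem_univ (QuotientGroup.mk (⟨h, hh⟩ : H))) (h4 _ _ ?_)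
      have h7 : (Quotient.out (QuotientGroup.mk (⟨h, hh⟩ : H) : H ⧸ D.subgroupOf H) : H)⁻¹ * (⟨h, hh⟩ : H) ∈ D.subgroupOf H := by
        rw [← QuotientGroup.eq]
        exact Quotient.out_eq' _
      exact h7
    have h8 := h6 g
    rw [← hP g] at h8
    rw [Finset.prod_eq_zero_iff] at h8
    obtain ⟨q, -, h9⟩ := h8
    exact h5 q h9
  have hfi2 : (Zc D).FiniteIndex := by
    have hs : Function.Surjective (fun q : (H ⧸ D.subgroupOf H) => (QuotientGroup.mk (r q) : SLZ n ⧸ Zc D)) := by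
      intro y
      obtain ⟨g, rfl⟩ := QuotientGroup.mk_surjective y
      obtain ⟨q, hq⟩ := key g
      exact ⟨q, QuotientGroup.eq.2 hq⟩
    have : Finite (SLZ n ⧸ Zc D) := Finite.of_surjective _ hs
    exact Subgroup.finiteIndex_of_finite_quotient
  exact zdense_of_le_Zc (FIZ n hn _ hfi2) le_rfl

theorem DEN_conj {n : ℕ} {F : SLZ n → ℤ} (hF : IsPoly F) (d : SLZ n) : IsPoly (fun g => F (g * d * g⁻¹)) := by
  obtain ⟨P, hP⟩ := hF
  simp only [hP]
  apply ip_evalP (fun (x : Fin n × Fin n) (g : SLZ n) =>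
    ((g * d * g⁻¹ : SLZ n) : Matrix (Fin n) (Fin n) ℤ) x.1 x.2)
  intro x
  simp only [Matrix.SpecialLinearGroup.coe_mul, Matrix.mul_apply]
  exact IsPoly.sum _ _ fun j _ => (IsPoly.sum _ _ fun k _ => (H48SL.IsPoly.entry _ _).mul (H48SL.IsPoly.const _)).mul (IsPoly.entry_inv _ _)

/-- a group which contains a unipotent element and is normalized by a Zariski dense group is Zariski dense -/
theorem DEN_norm {n : ℕ} (hn : 3 ≤ n) {N D : Subgroup (SLZ n)} (hN : ZDense N) (hND : ∀ g ∈ N, ∀ d ∈ D, g * d * g⁻¹ ∈ D)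
    {u : SLZ n} (hu : u ∈ D) (hu1 : u ≠ 1) (hnil : IsNilpotent (qg u - 1)) : ZDense D := by
  have h1 : (Zc D).Normal := by
    refine ⟨fun a ha g => ?_⟩
    rw [mem_Zc]
    intro F hF h0
    have h2 : ∀ d ∈ D, F (g * d * g⁻¹) = 0 := by
      intro d hd
      obtain ⟨P, hP⟩ := DEN_conj hF d
      have h3 := hN P (fun x hx => by
        rw [← hP x]
        exact h0 _ (hND x hx d hd)) g
      rw [← hP g] at h3
      exact h3
    have h4 : IsPoly (fun x : SLZ n => F (g * x * g⁻¹)) := ip_mul_left (F := fun y => F (y * g⁻¹)) (ip_mul_right hF g⁻¹) g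
    exact ha _ h4 h2
  exact zdense_of_le_Zc (FIZ n hn _ (NSG n hn _ h1 u (le_Zc D hu) hu1 hnil)) le_rfl

end Pool.Agent.RG9
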