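import Pool.Agent.helper22.RG9.CRE
import Pool.Agent.helper22.RG9.DEN
import Pool.Agent.helper73.TF.Fin

/-!
# Project rg9 (MP_a2a22c_al): the theorem, with the rows as hypotheses
-/

set_option autoImplicit false

namespace Pool.Agent.RG9

open Matrix Pool.Agent.H48SL Pool.Agent.UG

/-- a graded group which is normalized by a Zariski dense group has finite index -/
theorem Core_A (hGRU : GRU_stmt) (hINF : INF_stmt) (hCRE : CRE_stmt) {n m : ℕ} (hn : 3 ≤ n) (hm : 3 ≤ m)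
    (X : Fin m → Fin m → Subgroup (SLZ n)) (hX : Grad X) (hinf : ∃ i j, i ≠ j ∧ (X i j : Set (SLZ n)).Infinite)
    (N : Subgroup (SLZ n)) (hN : ZDense N) (hND : ∀ g ∈ N, ∀ d ∈ gd X, g * d * g⁻¹ ∈ gd X) : (gd X).FiniteIndex := by
  obtain ⟨i, j, hij, hi⟩ := hinf
  obtain ⟨x, hx, hxL⟩ := hINF n n.factorial (Nat.factorial_pos _) (X i j) hi
  have hu := hGRU n m hm X hX i j hij x hx
  have hxg0 : x ∈ gd X := Subgroup.subset_closure (k := {g | ∃ i j, i ≠ j ∧ g ∈ X i j}) ⟨i, j, hij, hx⟩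
  have hxg : x ^ n.factorial ∈ gd X := Subgroup.pow_mem _ hxg0 _
  have hD : ZDense (gd X) := DEN_norm hn hN hND hxg hxL hu
  exact hCRE n m hn hm X hX hD ⟨i, j, hij, hi⟩ (gd X) le_rfl

theorem Core_map {G K : Type} [Group G] [Group K] (φ : G →* K) {m : ℕ} {X : Fin m → Fin m → Subgroup G} (hX : Grad X) :
    Grad (fun i j => (X i j).map φ) := by
  constructor
  · rintro i j k l hij hkl hjk hil _ ⟨x, hx, rfl⟩ _ ⟨y, hy, rfl⟩
    rw [← map_mul, ← map_mul, hX.comm i j k l hij hkl hjk hil x hx y hy]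
  · intro i j k hij hjk hik
    show (X i k).map φ = _
    rw [hX.gen i j k hij hjk hik, MonoidHom.map_closure]
    congr 1
    ext g
    constructor
    · rintro ⟨_, ⟨x, hx, y, hy, rfl⟩, rfl⟩
      exact ⟨φ x, ⟨x, hx, rfl⟩, φ y, ⟨y, hy, rfl⟩, by rw [map_mul, map_mul, map_mul, map_inv, map_inv]⟩
    · rintro ⟨_, ⟨x, hx, rfl⟩, _, ⟨y, hy, rfl⟩, rfl⟩
      exact ⟨x * y * x⁻¹ * y⁻¹, ⟨x, hx, y, hy, rfl⟩, by rw [map_mul, map_mul, map_mul, map_inv, map_inv]⟩

theorem Core_gd {G K : Type} [Group G] [Group K] (φ : G →* K) {m : ℕ} (X : Fin m → Fin m → Subgroup G) :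
    (gd X).map φ = gd (fun i j => (X i j).map φ) := by
  rw [gd, MonoidHom.map_closure, gd]
  congr 1
  ext g
  constructor
  · rintro ⟨x, ⟨i, j, hij, hx⟩, rfl⟩
    exact ⟨i, j, hij, x, hx, rfl⟩
  · rintro ⟨i, j, hij, x, hx, rfl⟩
    exact ⟨x, ⟨i, j, hij, hx⟩, rfl⟩

/-- the abstract statement -/
theorem Core_B (hGRU : GRU_stmt) (hINF : INF_stmt) (hCRE : CRE_stmt) {n : ℕ} (hn : 3 ≤ n) (Γ : Type) [Group Γ] (hfg : Group.FG Γ)
    (hrf : ∀ g : Γ, g ≠ 1 → ∃ N : Subgroup Γ, N.index ≠ 0 ∧ g ∉ N)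
    (hq : ∀ (Q : Type) [Group Q] [Finite Q], (∃ f : Γ →* Q, Function.Surjective f) ↔
      (∃ f : SpecialLinearGroup (Fin n) ℤ →* Q, Function.Surjective f))
    {m : ℕ} (hm : 3 ≤ m) (X : Fin m → Fin m → Subgroup Γ) (hX : Grad X) (hinf : ∃ i j, i ≠ j ∧ (X i j : Set Γ).Infinite)
    (N : Subgroup Γ) (hN : N.FiniteIndex) (hND : ∀ g ∈ N, ∀ d ∈ gd X, g * d * g⁻¹ ∈ gd X) :
    Nonempty (Γ ≃* SpecialLinearGroup (Fin n) ℤ) := by
  by_contra hno
  rw [not_nonempty_iff] at hno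
  obtain ⟨φ, hφ, hD, hi⟩ := Pool.Agent.TF.Fin_emb hn Γ hfg hrf hq hno
  have hZN : ZDense (N.map φ) := by
    refine DEN_index hn hD.zdense ?_
    have h1 : φ.range = (⊤ : Subgroup Γ).map φ := (MonoidHom.range_eq_map φ)
    rw [h1, Subgroup.relIndex_map_map_of_injective N ⊤ hφ, Subgroup.relIndex_top_right]
    exact hN.index_ne_zero
  have hfi : (gd (fun i j => (X i j).map φ)).FiniteIndex := by
    refine Core_A hGRU hINF hCRE hn hm _ (Core_map φ hX) ?_ (N.map φ) hZN ?_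
    · obtain ⟨i, j, hij, h⟩ := hinf
      refine ⟨i, j, hij, ?_⟩
      have h2 : (((X i j).map φ : Subgroup (SLZ n)) : Set (SLZ n)) = φ '' (X i j : Set Γ) := Subgroup.coe_map φ (X i j)
      rw [h2]
      exact h.image hφ.injOn
    · rintro _ ⟨g, hg, rfl⟩ d hd
      rw [← Core_gd φ X] at hd ⊢
      obtain ⟨d, hd, rfl⟩ := hd
      exact ⟨g * d * g⁻¹, hND g hg d hd, by rw [map_mul, map_mul, map_inv]⟩
  apply hi
  refine Subgroup.finiteIndex_of_le (H := gd (fun i j => (X i j).map φ)) ?_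
  rw [← Core_gd φ X]
  exact Subgroup.map_le_range φ _

/-- transport of a grading -/
theorem Core_C (hCNV : CNV_stmt) {n : ℕ} (hn : 3 ≤ n) (Γ : Type) [Group Γ] (e : Γ ≃* SpecialLinearGroup (Fin n) ℤ) :
    ∃ X : Fin n → Fin n → Subgroup Γ, Grad X ∧ (∀ i j, i ≠ j → (X i j : Set Γ).Infinite) ∧ gd X = ⊤ := by
  obtain ⟨X, hX, hinf, htop⟩ := hCNV n hn
  refine ⟨fun i j => (X i j).map e.symm.toMonoidHom, Core_map _ hX, ?_, ?_⟩
  · intro i j hij
    have h2 : (((X i j).map e.symm.toMonoidHom : Subgroup Γ) : Set Γ) = e.symm '' (X i j : Set (SLZ n)) :=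
      Subgroup.coe_map _ (X i j)
    rw [h2]
    exact (hinf i j hij).image e.symm.injective.injOn
  · rw [← Core_gd, htop, ← MonoidHom.range_eq_map]
    exact MonoidHom.range_eq_top.2 e.symm.surjective

/-- elements which satisfy the relations of the Steinberg group `St_m(R)` -/
structure Stg {G : Type} [Group G] {m : ℕ} {R : Type} [Ring R] (e : Fin m → Fin m → R → G) : Prop where
  add : ∀ i j r s, i ≠ j → e i j (r + s) = e i j r * e i j s
  one : ∀ i j k l r s, i ≠ j → k ≠ l → j ≠ k → i ≠ l → e i j r * e k l s = e k l s * e i j r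
  mul : ∀ i j k r s, i ≠ j → j ≠ k → i ≠ k → e i j r * e j k s * (e i j r)⁻¹ * (e j k s)⁻¹ = e i k (r * s)

theorem Core_e0 {G : Type} [Group G] {m : ℕ} {R : Type} [Ring R] {e : Fin m → Fin m → R → G} (he : Stg e) {i j : Fin m}
    (hij : i ≠ j) : e i j 0 = 1 := by
  have h := he.add i j 0 0 hij
  rw [add_zero] at h
  exact (left_eq_mul.1 h)

/-- the root subgroups -/
def Core_X {G : Type} [Group G] {m : ℕ} {R : Type} [Ring R] {e : Fin m → Fin m → R → G} (he : Stg e) (i j : Fin m) :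
    Subgroup G where
  carrier := {g | i ≠ j ∧ g ∈ Set.range (e i j) ∨ g = 1}
  one_mem' := Or.inr rfl
  mul_mem' := by
    rintro a b (⟨hij, r, rfl⟩ | rfl) (⟨hij', s, rfl⟩ | rfl)
    · exact Or.inl ⟨hij, r + s, he.add i j r s hij⟩
    · rw [mul_one]
      exact Or.inl ⟨hij, r, rfl⟩
    · rw [one_mul]
      exact Or.inl ⟨hij', s, rfl⟩
    · rw [one_mul]
      exact Or.inr rfl
  inv_mem' := by
    rintro a (⟨hij, r, rfl⟩ | rfl)
    · refine Or.inl ⟨hij, -r, ?_⟩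
      have h := he.add i j (-r) r hij
      rw [neg_add_cancel, Core_e0 he hij] at h
      exact (inv_eq_of_mul_eq_one_left h.symm).symm
    · rw [inv_one]
      exact Or.inr rfl

theorem Core_S {G : Type} [Group G] {m : ℕ} {R : Type} [Ring R] {e : Fin m → Fin m → R → G} (he : Stg e) : Grad (Core_X he) := by
  constructor
  · rintro i j k l hij hkl hjk hil x (⟨-, r, rfl⟩ | rfl) y (⟨-, s, rfl⟩ | rfl)
    · exact he.one i j k l r s hij hkl hjk hil
    · rw [mul_one, one_mul]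
    · rw [mul_one, one_mul]
    · rfl
  · intro i j k hij hjk hik
    apply le_antisymm
    · rintro g (⟨-, r, rfl⟩ | rfl)
      · refine Subgroup.subset_closure ⟨e i j r, Or.inl ⟨hij, r, rfl⟩, e j k 1, Or.inl ⟨hjk, 1, rfl⟩, ?_⟩
        rw [he.mul i j k r 1 hij hjk hik, mul_one]
      · exact one_mem _
    · rw [Subgroup.closure_le]
      rintro g ⟨x, hx, y, hy, rfl⟩
      rcases hx with ⟨-, r, rfl⟩ | rfl
      · rcases hy with ⟨-, s, rfl⟩ | rfl
        · exact Or.inl ⟨hik, r * s, (he.mul i j k r s hij hjk hik).symm⟩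
        · refine Or.inr ?_
          rw [mul_one, mul_inv_cancel, inv_one, mul_one]
      · refine Or.inr ?_
        rw [one_mul, inv_one, mul_one, mul_inv_cancel]

theorem Core_Sgd {G : Type} [Group G] {m : ℕ} {R : Type} [Ring R] {e : Fin m → Fin m → R → G} (he : Stg e) :
    gd (Core_X he) = Subgroup.closure {g | ∃ i j r, i ≠ j ∧ g = e i j r} := by
  apply le_antisymm
  · rw [gd, Subgroup.closure_le]
    rintro g ⟨i, j, hij, hg⟩
    rcases hg with ⟨-, r, rfl⟩ | rfl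
    · exact Subgroup.subset_closure ⟨i, j, r, hij, rfl⟩
    · exact one_mem _
  · rw [Subgroup.closure_le]
    rintro g ⟨i, j, r, hij, rfl⟩
    exact Subgroup.subset_closure (k := {g | ∃ i j, i ≠ j ∧ g ∈ Core_X he i j}) ⟨i, j, hij, Or.inl ⟨hij, r, rfl⟩⟩

theorem Core_Sinf {G : Type} [Group G] {m : ℕ} {R : Type} [Ring R] {e : Fin m → Fin m → R → G} (he : Stg e)
    (h : ∃ i j, i ≠ j ∧ (Set.range (e i j)).Infinite) : ∃ i j, i ≠ j ∧ (Core_X he i j : Set G).Infinite := by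
  obtain ⟨i, j, hij, h⟩ := h
  refine ⟨i, j, hij, h.mono ?_⟩
  rintro _ ⟨r, rfl⟩
  exact Or.inl ⟨hij, r, rfl⟩

end Pool.Agent.RG9
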