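import Pool.Agent.helper22.RG9.Spec2
import Pool.Agent.helper22.RG9.Core

/-!
# Project rg9 (MP_a2a22c_al): the theorem for subgroups of finite index of graded groups, with the rows as hypotheses
-/

set_option autoImplicit false

namespace Pool.Agent.RG9

open Matrix Pool.Agent.H48SL Pool.Agent.UG

theorem Core2_wg {G : Type} [Group G] {m : ℕ} {X : Fin m → Fin m → Subgroup G} (hX : Grad X) : WG 1 X := by
  refine ⟨hX.comm, ?_, ?_⟩
  · intro i j k hij hjk hik x hx y hy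
    rw [hX.gen i j k hij hjk hik]
    exact Subgroup.subset_closure ⟨x, hx, y, hy, rfl⟩
  · intro i j k hij hjk hik g hg
    rw [pow_one, ← hX.gen i j k hij hjk hik]
    exact hg

/-- homomorphisms of subgroups of finite index of graded groups -/
theorem Core2_A (hINF : INF_stmt) (hGR2 : GR2_stmt) (hWGI : WGI_stmt) (hPRK : PRK_stmt) (hCR2 : CR2_stmt)
    {n m N : ℕ} (hn : 3 ≤ n) (hm : 3 ≤ m) (hN : 1 ≤ N) (D : Type) [Group D] (X : Fin m → Fin m → Subgroup D) (hX : WG N X)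
    (htop : gd X = ⊤) (Δ : Subgroup D) (hΔ : Δ.FiniteIndex) (φ : Δ →* SLZ n)
    (hinf : ∃ i j, i ≠ j ∧ (φ '' {x : Δ | (x : D) ∈ X i j}).Infinite)
    (M : Subgroup (SLZ n)) (hM : ZDense M) (hMD : ∀ g ∈ M, ∀ d ∈ φ.range, g * d * g⁻¹ ∈ φ.range) : φ.range.FiniteIndex := by
  obtain ⟨i, j, hij, hi⟩ := hinf
  have hle : Δ.normalCore ≤ Δ := Subgroup.normalCore_le Δ
  have hfi : Δ.normalCore.FiniteIndex := inferInstance
  have hk0 : Δ.normalCore.index ≠ 0 := hfi.index_ne_zero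
  have hk1 : 1 ≤ Δ.normalCore.index := Nat.one_le_iff_ne_zero.2 hk0
  have hK : ∀ x : D, x ^ Δ.normalCore.index ∈ Δ.normalCore := fun x => Subgroup.pow_index_mem Δ.normalCore x
  obtain ⟨k, hk⟩ : ∃ k, k = Δ.normalCore.index := ⟨_, rfl⟩
  rw [← hk] at hk0 hk1 hK
  obtain ⟨K, hKd⟩ : ∃ K, K = Δ.normalCore := ⟨_, rfl⟩
  rw [← hKd] at hle hfi hK
  obtain ⟨φ', hφ'⟩ : ∃ φ' : K →* SLZ n, φ' = φ.comp (Subgroup.inclusion hle) := ⟨_, rfl⟩
  have hφa : ∀ x : K, φ' x = φ ⟨(x : D), hle x.2⟩ := fun x => by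
    rw [hφ']
    rfl
  -- an element of infinite order
  have hYi : ((((X i j).subgroupOf Δ).map φ : Subgroup (SLZ n)) : Set (SLZ n)).Infinite := hi
  obtain ⟨y, ⟨x, hx, rfl⟩, hy⟩ := hINF n (k * (k * (N * k * n.factorial)))
    (Nat.mul_pos hk1 (Nat.mul_pos hk1 (Nat.mul_pos (Nat.mul_pos hN hk1) (Nat.factorial_pos _)))) _ hYi
  have hxX : (x : D) ∈ X i j := hx
  obtain ⟨x', hx'⟩ : ∃ x' : K, x' = ⟨(x : D) ^ k, hK x⟩ := ⟨_, rfl⟩
  have hx'X : (x' : D) ∈ X i j := by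
    rw [hx']
    exact (X i j).pow_mem hxX k
  have hx'φ : φ' x' = φ x ^ k := by
    rw [hφa, hx', ← map_pow]
    rfl
  have hne : φ' x' ^ (k * (N * k * n.factorial)) ≠ 1 := by
    rw [hx'φ, ← pow_mul]
    exact hy
  -- density
  obtain ⟨hPR, -⟩ := hPRK D n k K hK φ'
  have hW := hWGI D n m N k hm _ hPR X hX
  have hu := hGR2 n m (N * k) hm _ hW i j hij (φ' ⟨(x' : D) ^ k, hK x'⟩) (Subgroup.subset_closure ⟨(x' : D), hx'X, rfl⟩)
  have hx2 : φ' ⟨(x' : D) ^ k, hK x'⟩ = φ' x' ^ k := by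
    rw [← map_pow]
    rfl
  rw [hx2, ← pow_mul] at hu
  have hr : φ'.range ≤ φ.range := by
    rintro _ ⟨z, rfl⟩
    rw [hφa]
    exact ⟨_, rfl⟩
  have hZ : ZDense φ.range := DEN_norm hn hM hMD (φ.range.pow_mem (hr ⟨x', rfl⟩) (k * (N * k * n.factorial))) hne hu
  have hrel : φ'.range.relIndex φ.range ≠ 0 := by
    have h1 : φ'.range = (K.subgroupOf Δ).map φ := by
      ext g
      constructor
      · rintro ⟨z, rfl⟩
        exact ⟨⟨(z : D), hle z.2⟩, z.2, (hφa z).symm⟩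
      · rintro ⟨z, hz, rfl⟩
        exact ⟨⟨(z : D), hz⟩, hφa _⟩
    have h2 : φ.range = (⊤ : Subgroup Δ).map φ := MonoidHom.range_eq_map φ
    rw [h1, h2]
    have h3 : (K.subgroupOf Δ).FiniteIndex := inferInstance
    have h4 : ((K.subgroupOf Δ).map φ.rangeRestrict).index ≠ 0 := by
      have h5 := Subgroup.index_map_dvd (K.subgroupOf Δ) φ.rangeRestrict_surjective
      exact fun h0 => h3.index_ne_zero (Nat.eq_zero_of_zero_dvd (h0 ▸ h5))
    rw [← h2, ← h1]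
    have h6 : φ'.range.subgroupOf φ.range = (K.subgroupOf Δ).map φ.rangeRestrict := by
      ext ⟨g, hg⟩
      rw [Subgroup.mem_subgroupOf, h1]
      constructor
      · rintro ⟨z, hz, hzg⟩
        exact ⟨z, hz, Subtype.ext hzg⟩
      · rintro ⟨z, hz, hzg⟩
        exact ⟨z, hz, congrArg Subtype.val hzg⟩
    rw [Subgroup.relIndex, h6]
    exact h4
  have hZ' : ZDense φ'.range := DEN_index hn hZ hrel
  have hfin := hCR2 n m N k hn hm hN hk1 D X hX htop K hK φ' hZ' ⟨i, j, hij, x', hx'X, hne⟩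
  exact Subgroup.finiteIndex_of_le hr

/-- the abstract statement -/
theorem Core2_B (hINF : INF_stmt) (hGR2 : GR2_stmt) (hWGI : WGI_stmt) (hPRK : PRK_stmt) (hCR2 : CR2_stmt)
    {n : ℕ} (hn : 3 ≤ n) (Γ : Type) [Group Γ] (hfg : Group.FG Γ)
    (hrf : ∀ g : Γ, g ≠ 1 → ∃ N : Subgroup Γ, N.index ≠ 0 ∧ g ∉ N)
    (hq : ∀ (Q : Type) [Group Q] [Finite Q], (∃ f : Γ →* Q, Function.Surjective f) ↔
      (∃ f : SpecialLinearGroup (Fin n) ℤ →* Q, Function.Surjective f))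
    {m N : ℕ} (hm : 3 ≤ m) (hN : 1 ≤ N) (D : Type) [Group D] (X : Fin m → Fin m → Subgroup D) (hX : WG N X)
    (htop : gd X = ⊤) (Δ : Subgroup D) (hΔ : Δ.FiniteIndex) (ψ : Δ →* Γ)
    (hinf : ∃ i j, i ≠ j ∧ (ψ '' {x : Δ | (x : D) ∈ X i j}).Infinite)
    (M : Subgroup Γ) (hM : M.FiniteIndex) (hMD : ∀ g ∈ M, ∀ d ∈ ψ.range, g * d * g⁻¹ ∈ ψ.range) :
    Nonempty (Γ ≃* SpecialLinearGroup (Fin n) ℤ) := by
  by_contra hno
  rw [not_nonempty_iff] at hno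
  obtain ⟨φ, hφ, hD, hi⟩ := Pool.Agent.TF.Fin_emb hn Γ hfg hrf hq hno
  have hZN : ZDense (M.map φ) := by
    refine DEN_index hn hD.zdense ?_
    have h1 : φ.range = (⊤ : Subgroup Γ).map φ := (MonoidHom.range_eq_map φ)
    rw [h1, Subgroup.relIndex_map_map_of_injective M ⊤ hφ, Subgroup.relIndex_top_right]
    exact hM.index_ne_zero
  have hfi : (φ.comp ψ).range.FiniteIndex := by
    refine Core2_A hINF hGR2 hWGI hPRK hCR2 hn hm hN D X hX htop Δ hΔ (φ.comp ψ) ?_ (M.map φ) hZN ?_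
    · obtain ⟨i, j, hij, h⟩ := hinf
      refine ⟨i, j, hij, ?_⟩
      have h2 : (φ.comp ψ) '' {x : Δ | (x : D) ∈ X i j} = φ '' (ψ '' {x : Δ | (x : D) ∈ X i j}) := by
        rw [Set.image_image]
        rfl
      rw [h2]
      exact h.image hφ.injOn
    · rintro _ ⟨g, hg, rfl⟩ _ ⟨d, rfl⟩
      obtain ⟨d', hd'⟩ := hMD g hg (ψ d) ⟨d, rfl⟩
      refine ⟨d', ?_⟩
      show φ (ψ d') = φ g * φ (ψ d) * (φ g)⁻¹
      rw [hd', map_mul, map_mul, map_inv]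
  apply hi
  refine Subgroup.finiteIndex_of_le (H := (φ.comp ψ).range) ?_
  rintro _ ⟨d, rfl⟩
  exact ⟨ψ d, rfl⟩

end Pool.Agent.RG9
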