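import Pool.Agent.helper22.RG9.Spec3
import Pool.Agent.helper22.RG9.Core2

/-!
# Project rg9 (MP_a2a22c_al), part 3: the theorem without normality, with the rows as hypotheses
-/

set_option autoImplicit false

namespace Pool.Agent.RG9

open Matrix Pool.Agent.H48SL Pool.Agent.UG

/-- the weak grading of a subgroup of the image -/
theorem Core3_W (hINF : INF_stmt) (hWGI : WGI_stmt) (hPRK : PRK_stmt)
    {n m N : ℕ} (hm : 3 ≤ m) (hN : 1 ≤ N) (D : Type) [Group D] (X : Fin m → Fin m → Subgroup D) (hX : WG N X)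
    (Δ : Subgroup D) (hΔ : Δ.FiniteIndex) (φ : Δ →* SLZ n)
    (hinf : ∃ i j, i ≠ j ∧ (φ '' {x : Δ | (x : D) ∈ X i j}).Infinite) :
    ∃ (M : ℕ) (W : Fin m → Fin m → Subgroup (SLZ n)), 1 ≤ M ∧ WG M W ∧ gd W ≤ φ.range ∧
      ∃ i j, i ≠ j ∧ ∃ x ∈ W i j, x ^ (M * n.factorial) ≠ 1 := by
  obtain ⟨i, j, hij, hi⟩ := hinf
  have hle : Δ.normalCore ≤ Δ := Subgroup.normalCore_le Δ
  have hfi : Δ.normalCore.FiniteIndex := inferInstance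
  have hk0 : Δ.normalCore.index ≠ 0 := hfi.index_ne_zero
  have hk1 : 1 ≤ Δ.normalCore.index := Nat.one_le_iff_ne_zero.2 hk0
  have hK : ∀ x : D, x ^ Δ.normalCore.index ∈ Δ.normalCore := fun x => Subgroup.pow_index_mem Δ.normalCore x
  obtain ⟨k, hk⟩ : ∃ k, k = Δ.normalCore.index := ⟨_, rfl⟩
  rw [← hk] at hk0 hk1 hK
  obtain ⟨K, hKd⟩ : ∃ K, K = Δ.normalCore := ⟨_, rfl⟩
  rw [← hKd] at hle hfi hK
  obtain ⟨φ', hφ'⟩ : ∃ φ' : K →* SLZ n, φ' = φ.comp (Subgroup.inclusion hle) := ⟨_, rfl⟩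
  have hφa : ∀ x : K, φ' x = φ ⟨(x : D), hle x.2⟩ := fun x => by
    rw [hφ']
    rfl
  have hYi : ((((X i j).subgroupOf Δ).map φ : Subgroup (SLZ n)) : Set (SLZ n)).Infinite := hi
  obtain ⟨y, ⟨x, hx, rfl⟩, hy⟩ := hINF n (k * (N * k * n.factorial))
    (Nat.mul_pos hk1 (Nat.mul_pos (Nat.mul_pos hN hk1) (Nat.factorial_pos _))) _ hYi
  have hxX : (x : D) ∈ X i j := hx
  obtain ⟨hPR, -⟩ := hPRK D n k K hK φ'
  have hW := hWGI D n m N k hm _ hPR X hX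
  refine ⟨N * k, _, Nat.mul_pos hN hk1, hW, ?_, i, j, hij, φ' ⟨(x : D) ^ k, hK x⟩,
    Subgroup.subset_closure ⟨(x : D), hxX, rfl⟩, ?_⟩
  · rw [gd, Subgroup.closure_le]
    rintro g ⟨i, j, -, hg⟩
    have h9 : im (fun x : D => φ' ⟨x ^ k, hK x⟩) (X i j) ≤ φ.range := by
      rw [im, Subgroup.closure_le]
      rintro _ ⟨y, -, rfl⟩
      exact ⟨⟨y ^ k, hle (hK y)⟩, (hφa ⟨y ^ k, hK y⟩).symm⟩
    exact h9 hg
  · have h1 : φ' ⟨(x : D) ^ k, hK x⟩ = φ x ^ k := by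
      rw [hφa, ← map_pow]
      rfl
    rw [h1, ← pow_mul]
    exact hy

/-- Zariski dense groups which contain the image of a subgroup of finite index of a graded group of large rank -/
theorem Core3_A (hINF : INF_stmt) (hWGI : WGI_stmt) (hPRK : PRK_stmt) (hRKH : RKH_stmt)
    {n m N : ℕ} (hn : 3 ≤ n) (hm : 3 ≤ m) (hN : 1 ≤ N) (hnm : n - 1 ≤ m * (m - 1) / 2) (D : Type) [Group D]
    (X : Fin m → Fin m → Subgroup D) (hX : WG N X) (Δ : Subgroup D) (hΔ : Δ.FiniteIndex) (φ : Δ →* SLZ n)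
    (hinf : ∃ i j, i ≠ j ∧ (φ '' {x : Δ | (x : D) ∈ X i j}).Infinite)
    (H : Subgroup (SLZ n)) (hH : ZDense H) (hle : φ.range ≤ H) : H.FiniteIndex := by
  obtain ⟨M, W, hM, hW, hWr, i, j, hij, x, hx, hx1⟩ := Core3_W hINF hWGI hPRK hm hN D X hX Δ hΔ φ hinf
  exact hRKH n m M hn hm hM hnm W hW ⟨i, j, hij, x, hx, hx1⟩ H (hWr.trans hle) hH

/-- the abstract statement -/
theorem Core3_B (hINF : INF_stmt) (hWGI : WGI_stmt) (hPRK : PRK_stmt) (hRKH : RKH_stmt)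
    {n : ℕ} (hn : 3 ≤ n) (Γ : Type) [Group Γ] (hfg : Group.FG Γ)
    (hrf : ∀ g : Γ, g ≠ 1 → ∃ N : Subgroup Γ, N.index ≠ 0 ∧ g ∉ N)
    (hq : ∀ (Q : Type) [Group Q] [Finite Q], (∃ f : Γ →* Q, Function.Surjective f) ↔
      (∃ f : SpecialLinearGroup (Fin n) ℤ →* Q, Function.Surjective f))
    {m N : ℕ} (hm : 3 ≤ m) (hN : 1 ≤ N) (hnm : n - 1 ≤ m * (m - 1) / 2) (D : Type) [Group D]
    (X : Fin m → Fin m → Subgroup D) (hX : WG N X) (Δ : Subgroup D) (hΔ : Δ.FiniteIndex) (ψ : Δ →* Γ)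
    (hinf : ∃ i j, i ≠ j ∧ (ψ '' {x : Δ | (x : D) ∈ X i j}).Infinite) :
    Nonempty (Γ ≃* SpecialLinearGroup (Fin n) ℤ) := by
  by_contra hno
  rw [not_nonempty_iff] at hno
  obtain ⟨φ, hφ, hD, hi⟩ := Pool.Agent.TF.Fin_emb hn Γ hfg hrf hq hno
  apply hi
  refine Core3_A hINF hWGI hPRK hRKH hn hm hN hnm D X hX Δ hΔ (φ.comp ψ) ?_ φ.range hD.zdense ?_
  · obtain ⟨i, j, hij, h⟩ := hinf
    refine ⟨i, j, hij, ?_⟩
    have h2 : (φ.comp ψ) '' {x : Δ | (x : D) ∈ X i j} = φ '' (ψ '' {x : Δ | (x : D) ∈ X i j}) := by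
      rw [Set.image_image]
      rfl
    rw [h2]
    exact h.image hφ.injOn
  · rintro _ ⟨d, rfl⟩
    exact ⟨ψ d, rfl⟩

end Pool.Agent.RG9
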