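import Pool.Agent.helper22.RG9.EL
import Pool.Agent.helper22.RG9.Core3

/-!
# Project rg9 (MP_a2a22c_al): subgroups of finite index of elementary groups
-/

set_option autoImplicit false

namespace Pool.Agent.RG9

open Matrix Pool.Agent.H48SL Pool.Agent.UG

/-- the root subgroups of a subgroup of finite index of `EL(m, R)` are infinite -/
theorem Fin_inf {m : ℕ} (R : Type) [Ring R] (hR : Infinite R) (Δ : Subgroup (EL m R)) (hΔ : Δ.FiniteIndex)
    {G : Type} [Group G] (f : Δ →* G) (hf : Function.Injective f) {i j : Fin m} (hij : i ≠ j) :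
    (f '' {x : Δ | (x : EL m R) ∈ Core_X (EL_stg m R) i j}).Infinite := by
  refine Set.Infinite.image hf.injOn ?_
  intro hfin
  have h1 : (Δ.subgroupOf (Core_X (EL_stg m R) i j)).FiniteIndex := inferInstance
  have h2 : Finite (Δ.subgroupOf (Core_X (EL_stg m R) i j)) := by
    have h3 : ((fun x : Δ => (x : EL m R)) '' {x : Δ | (x : EL m R) ∈ Core_X (EL_stg m R) i j}).Finite := hfin.image _
    have h33 := h3.to_subtype
    refine Finite.of_injective (β := ((fun x : Δ => (x : EL m R)) '' {x : Δ | (x : EL m R) ∈ Core_X (EL_stg m R) i j} : Set (EL m R)))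
      (fun x => ⟨((x : Core_X (EL_stg m R) i j) : EL m R), ⟨⟨((x : Core_X (EL_stg m R) i j) : EL m R), x.2⟩, (x : Core_X (EL_stg m R) i j).2, rfl⟩⟩) ?_
    intro x y hxy
    have h4 := congrArg Subtype.val hxy
    exact Subtype.ext (Subtype.ext h4)
  have h5 : Finite (Core_X (EL_stg m R) i j) := by
    have h6 : Finite (Core_X (EL_stg m R) i j ⧸ Δ.subgroupOf (Core_X (EL_stg m R) i j)) := Subgroup.finite_quotient_of_finiteIndex
    exact Finite.of_equiv _ (Subgroup.groupEquivQuotientProdSubgroup (s := Δ.subgroupOf (Core_X (EL_stg m R) i j))).symm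
  have h7 : Finite R := by
    refine Finite.of_injective (β := Core_X (EL_stg m R) i j) (fun r => ⟨EL_e m R i j r, Or.inl ⟨hij, r, rfl⟩⟩) ?_
    intro r s hrs
    exact EL_inj hij (congrArg Subtype.val hrs)
  exact not_finite R

end Pool.Agent.RG9
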