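import Pool.Agent.helper22.RG9.Spec3
import Pool.Agent.helper81.UH.Spec

/-!
# Project rg9 (MP_a2a22c_al), row RKH: Zariski dense groups which contain a graded group of large rank
-/

set_option autoImplicit false

namespace Pool.Agent.RG9

open Matrix Pool.Agent.H48SL Pool.Agent.UG

theorem RKH_card (m : ℕ) : Fintype.card {p : Fin m × Fin m // p.1 < p.2} = m * (m - 1) / 2 := by
  classical
  have hA : Fintype.card {p : Fin m × Fin m // p.1 < p.2} = (Finset.univ.filter (fun p : Fin m × Fin m => p.1 < p.2)).card :=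
    Fintype.card_subtype _
  have hB : (Finset.univ.filter (fun p : Fin m × Fin m => p.2 < p.1)).card = (Finset.univ.filter (fun p : Fin m × Fin m => p.1 < p.2)).card := by
    refine Finset.card_bij (fun p _ => (p.2, p.1)) ?_ ?_ ?_
    · intro p hp
      rw [Finset.mem_filter] at hp ⊢
      exact ⟨Finset.mem_univ _, hp.2⟩
    · intro p _ q _ h
      exact Prod.ext (Prod.ext_iff.1 h).2 (Prod.ext_iff.1 h).1
    · intro p hp
      rw [Finset.mem_filter] at hp
      exact ⟨(p.2, p.1), by rw [Finset.mem_filter]; exact ⟨Finset.mem_univ _, hp.2⟩, rfl⟩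
  have hC : (Finset.univ.filter (fun p : Fin m × Fin m => p.1 = p.2)).card = m := by
    have h1 : (Finset.univ.filter (fun p : Fin m × Fin m => p.1 = p.2)).card = (Finset.univ : Finset (Fin m)).card := by
      refine (Finset.card_bij (fun i _ => (i, i)) ?_ ?_ ?_).symm
      · intro i _
        rw [Finset.mem_filter]
        exact ⟨Finset.mem_univ _, rfl⟩
      · intro i _ j _ h
        exact (Prod.ext_iff.1 h).1
      · intro p hp
        rw [Finset.mem_filter] at hp
        exact ⟨p.1, Finset.mem_univ _, Prod.ext rfl hp.2⟩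
    rw [h1, Finset.card_univ, Fintype.card_fin]
  have hU : (Finset.univ.filter (fun p : Fin m × Fin m => p.1 < p.2)) ∪ (Finset.univ.filter (fun p : Fin m × Fin m => p.2 < p.1)) ∪
      (Finset.univ.filter (fun p : Fin m × Fin m => p.1 = p.2)) = Finset.univ := by
    ext p
    simp only [Finset.mem_union, Finset.mem_filter, Finset.mem_univ, true_and, iff_true]
    rcases lt_trichotomy p.1 p.2 with h | h | h
    · exact Or.inl (Or.inl h)
    · exact Or.inr h
    · exact Or.inl (Or.inr h)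
  have hc := congrArg Finset.card hU
  rw [Finset.card_union_of_disjoint, Finset.card_union_of_disjoint, hB, hC, Finset.card_univ, Fintype.card_prod, Fintype.card_fin] at hc
  · rw [hA]
    have h2 : (Finset.univ.filter (fun p : Fin m × Fin m => p.1 < p.2)).card * 2 = m * (m - 1) := by
      rw [Nat.mul_sub, Nat.mul_one]
      omega
    rw [← h2]
    omega
  · rw [Finset.disjoint_left]
    intro p hp hq
    rw [Finset.mem_filter] at hp hq
    exact lt_asymm hp.2 hq.2
  · rw [Finset.disjoint_left]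
    intro p hp hq
    rw [Finset.mem_union, Finset.mem_filter, Finset.mem_filter] at hp
    rw [Finset.mem_filter] at hq
    rcases hp with hp | hp
    · exact absurd hp.2 (by rw [hq.2]; exact lt_irrefl _)
    · exact absurd hp.2 (by rw [hq.2]; exact lt_irrefl _)

theorem RKH (hLGF : LGF_stmt) (hGR2 : GR2_stmt) (hAB2 : AB2_stmt) (hBR3 : BR3_stmt) (hCHN : CHN_stmt) (hLIN : LIN_stmt) (hANU : ANU_stmt)
    (hUNG : UNG_stmt) (hKOL : KOL_stmt) (hMAL : MAL_stmt) (hFIN : Pool.Agent.UH.FIN_stmt) : RKH_stmt := by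
  intro n m N hn hm hN hnm X hX hx H hH hZ
  obtain ⟨i0, j0, hij0, x0, hx0, hx1⟩ := hx
  obtain ⟨h1, -, -, -, -, h6, h7, h8⟩ := hLGF n
  have hU := hGR2 n m N hm X hX
  have hG := hBR3 n m N hm hN X hX
  have hab : ∀ i j, i ≠ j → ∀ x ∈ X i j, ∀ y ∈ X i j, x * y = y * x := fun i j hij x hx y hy =>
    hX.comm i j i j hij hij hij.symm hij x hx y hy
  have hpull : ∀ i j, i ≠ j → ∀ A ∈ LE (N * n.factorial) (X i j), ∃ k : ℕ, 1 ≤ k ∧ ∃ x ∈ X i j, (k : ℚ) • A = lg (x ^ (N * n.factorial)) :=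
    fun i j hij => hAB2 n _ (X i j) (hab i j hij) (hU i j hij)
  have hne : LE (N * n.factorial) (X i0 j0) ≠ ⊥ := by
    intro h0
    have h9 : lg (x0 ^ (N * n.factorial)) ∈ LE (N * n.factorial) (X i0 j0) := Submodule.subset_span ⟨x0, hx0, rfl⟩
    rw [h0, Submodule.mem_bot] at h9
    exact hx1 (h6 _ _ (hU i0 j0 hij0 x0 hx0) h7 (h9.trans h8.symm))
  obtain ⟨Z, hZc⟩ := hCHN n m hm (fun i j => LE (N * n.factorial) (X i j)) hG ⟨i0, j0, hij0, hne⟩
  have hk0 : ∀ k : ℕ, 1 ≤ k → (k : ℚ) ≠ 0 := fun k hk => by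
    have : k ≠ 0 := by omega
    exact_mod_cast this
  have hnil : ∀ i j, i ≠ j → ∀ A ∈ LE (N * n.factorial) (X i j), IsNilpotent A := by
    intro i j hij A hA
    obtain ⟨k, hk, x, hx, he⟩ := hpull i j hij A hA
    have h9 : A = (k : ℚ)⁻¹ • lg (x ^ (N * n.factorial)) := by
      rw [← he, smul_smul, inv_mul_cancel₀ (hk0 k hk), one_smul]
    rw [h9]
    exact (h1 _ (hU i j hij x hx)).1.smul _
  have hANil := hANU n m hm (fun i j => LE (N * n.factorial) (X i j)) hG hnil
  obtain ⟨S, hS⟩ : ∃ S : Set (SLZ n), S = {g | ∃ i j, i < j ∧ ∃ x ∈ X i j, g = x ^ (N * n.factorial)} := ⟨_, rfl⟩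
  have hSU : ∀ g ∈ Subgroup.closure S, Unp g := by
    refine hUNG n _ hANil S ?_
    rw [hS]
    rintro g ⟨i, j, hij, x, hx, rfl⟩
    exact ⟨hU i j hij.ne x hx, Submodule.subset_span ⟨i, j, hij, Submodule.subset_span ⟨x, hx, rfl⟩⟩⟩
  obtain ⟨𝔞, ⟨M, hM⟩, h𝔞2, h𝔞3⟩ := hMAL n _ (hKOL n _ hSU)
  have hZa : ∀ i j, i < j → Z i j ∈ 𝔞 := by
    intro i j hij
    obtain ⟨k, hk, x, hx, he⟩ := hpull i j hij.ne (Z i j) (hZc.mem i j hij)
    have h9 : x ^ (N * n.factorial) ∈ Subgroup.closure S := by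
      refine Subgroup.subset_closure ?_
      rw [hS]
      exact ⟨i, j, hij, x, hx, rfl⟩
    obtain ⟨W, hW, hWe⟩ := h𝔞3 _ h9
    have hWn : IsNilpotent W := by
      refine ⟨M, ?_⟩
      have h10 := hM (List.replicate M W) (fun Y hY => by rw [List.eq_of_mem_replicate hY]; exact hW) (by rw [List.length_replicate])
      rwa [List.prod_replicate] at h10
    have h11 : lg (x ^ (N * n.factorial)) = W := by
      rw [lg, hWe]
      exact (lgP_spec n).2.2 W hWn
    have h12 : Z i j = (k : ℚ)⁻¹ • W := by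
      rw [← h11, ← he, smul_smul, inv_mul_cancel₀ (hk0 k hk), one_smul]
    rw [h12]
    exact Submodule.smul_mem _ _ hW
  have hfr : n - 1 ≤ Module.finrank ℚ 𝔞 := by
    have hli := hLIN n m (fun i j => LE (N * n.factorial) (X i j)) Z hm hG hZc
    have hli2 : LinearIndependent ℚ (fun p : {p : Fin m × Fin m // p.1 < p.2} => (⟨Z p.1.1 p.1.2, hZa _ _ p.2⟩ : 𝔞)) :=
      LinearIndependent.of_comp 𝔞.subtype hli
    have h13 := hli2.fintype_card_le_finrank
    rw [RKH_card] at h13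
    exact hnm.trans h13
  obtain ⟨n', rfl⟩ : ∃ n', n = n' + 1 := ⟨n - 1, by omega⟩
  refine hFIN n' M (Subgroup.closure S) H 𝔞 (by omega) hZ ⟨hM, h𝔞2, h𝔞3⟩ ?_ hfr
  rw [Subgroup.closure_le, hS]
  rintro g ⟨i, j, hij, x, hx, rfl⟩
  refine hH (Subgroup.pow_mem _ ?_ _)
  exact Subgroup.subset_closure (k := {g | ∃ i j, i ≠ j ∧ g ∈ X i j}) ⟨i, j, hij.ne, hx⟩

end Pool.Agent.RG9
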