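import Pool.Agent.helper22.RG9.Asm2
import Pool.Agent.helper22.RG9.Fin
import Pool.Agent.helper22.RG9.RKH
import Pool.Agent.helper22.RG9.ANL
import Pool.Agent.helper40.RG9.CHN
import Pool.Agent.helper87.RG9.LIN
import Pool.Agent.helper98.RG9.ANU
import Pool.Agent.helper34.RG9.UNG

/-!
# Project rg9 (MP_a2a22c_al): assembly of the third part
-/

set_option autoImplicit false

namespace Pool.Agent.RG9

open Matrix Pool.Agent.H48SL Pool.Agent.UG

theorem tRKH : RKH_stmt :=
  RKH LGF tGR2 tAB2 tBR3 CHN LIN (ANU NCM ANL) (UNG LGF) tKOL tMAL Pool.Agent.UH.tFIN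

end Pool.Agent.RG9
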