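import Pool.Agent.helper22.RG9.Spec
import Pool.Agent.helper81.UH.Spec

/-!
# Project rg9 (MP_a2a22c_al), row CRE: the assembly of the core
-/

set_option autoImplicit false

namespace Pool.Agent.RG9

open Matrix Pool.Agent.H48SL Pool.Agent.UG

theorem CRE (hLGF : LGF_stmt) (hGRU : GRU_stmt) (hBR2 : BR2_stmt) (hINF : INF_stmt) (hNRM : NRM_stmt)
    (hZAR : ZAR_stmt) (hADI : ADI_stmt) (hCNT : CNT_stmt) (hLAT : LAT_stmt) (hFIN : Pool.Agent.UH.FIN_stmt) : CRE_stmt := by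
  intro n m hn hm X hX hZ hinf H hH
  obtain ⟨i0, j0, hij, hinf⟩ := hinf
  obtain ⟨n', rfl⟩ : ∃ n', n = n' + 1 := ⟨n - 1, by omega⟩
  obtain ⟨h1, -, -, -, -, h6, h7, h8⟩ := hLGF (n' + 1)
  have hB := hBR2 (n' + 1) m hm X hX
  obtain ⟨x, hx, hxL⟩ := hINF (n' + 1) (n' + 1).factorial (Nat.factorial_pos _) (X i0 j0) hinf
  have hu := hGRU (n' + 1) m hm X hX i0 j0 hij x hx
  have hN0 : lg (x ^ (n' + 1).factorial) ≠ 0 := by
    intro h0
    exact hxL (h6 _ _ hu h7 (h0.trans h8.symm))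
  have hNL : lg (x ^ (n' + 1).factorial) ∈ LS (X i0 j0) := Submodule.subset_span ⟨x, hx, rfl⟩
  have hNS : lg (x ^ (n' + 1).factorial) ∈ SS (fun i j => LS (X i j)) :=
    Submodule.subset_span (Or.inl ⟨i0, j0, hij, hNL⟩)
  have hst := hZAR (n' + 1) (gd X) hZ (SS (fun i j => LS (X i j))) (fun g hg Z hZ' => hNRM (n' + 1) m hm X hX g hg Z hZ')
  have htr := hADI (n' + 1) hn _ hst _ hNS (h1 _ hu).1 hN0
  obtain ⟨hrow, A, hA, ⟨N, hcol⟩, hlat, hlog⟩ := hLAT (n' + 1) m hm X hX i0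
  have hdim := hCNT (n' + 1) m (by omega) hm (fun i j => LS (X i j)) i0 hB htr hrow ⟨j0, hij, fun h0 => by
    rw [h0, Submodule.mem_bot] at hNL
    exact hN0 hNL⟩
  refine hFIN n' N A H (colS (fun i j => LS (X i j)) i0) (by omega) ?_ ⟨hcol, hlat, hlog⟩ (hA.trans hH) hdim
  intro P hP
  exact hZ P fun h hh => hP h (hH hh)

end Pool.Agent.RG9
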