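import Pool.Agent.helper54.UG.Spec
import Pool.Agent.helper10.UG.LG
import Pool.Agent.helper85.UG.EXJ
import Pool.Agent.helper71.UG.EXC
import Pool.Agent.helper18.UG.COM

/-!
# Project rg9 (MP_a2a22c_al): ROOT GRADED GROUPS. Statements of the rows, with complete proofs in the docstrings

Paper: /team-store/H9_MP_a2a22c_al_GRADED_helper22.md. A row XX is a file `Pool/Agent/<seat>/RG9/XX.lean` which imports
`Pool.Agent.helper22.RG9.Spec`, `set_option autoImplicit false`, namespace `Pool.Agent.RG9`, `open Matrix Pool.Agent.H48SL Pool.Agent.UG`, with the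
theorem given in the lock note (other rows only as hypotheses; more rows may be added as hypotheses, unused ones dropped; auxiliary lemmas with the
prefix `XX_`). The LANDED theorems `Pool.Agent.UG.LG EXJ`, `EXJ`, `EXC`, `COM` may be used directly (statements: Pool/Agent/helper54/UG/Spec.lean).
Library: `Pool/Agent/helper54/UG/Basic.lean` (`SLZ n`, `MQ n`, `qg g` the rational matrix of `g`, `qg_mul`, `qg_one`, `qg_pow`, `qg_inj`, `qg_mul_inv`,
`qg_inv_mul`, `IsPolyQ` and its closure lemmas, `IsPolyQ.dense`, `ANil`, `PC`). No double quotes, no `convert` / `congr!`, no sorry.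

THEOREM. A Zariski dense subgroup of `SL(n, ℤ)`, `n ≥ 3`, generated by subgroups `X i j` (`i ≠ j` in `Fin m`, `m ≥ 3`) with `X i j`, `X k l` commuting if
`j ≠ k`, `i ≠ l`, and `X i k` generated by the commutators of `X i j` and `X j k`, one of them infinite, has finite index.
Throughout `L = n !`.
-/

set_option autoImplicit false

namespace Pool.Agent.RG9

open Matrix Pool.Agent.H48SL Pool.Agent.UG

/-! ### Definitions -/

/-- (strong) grading by the root system `A_(m-1)` -/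
structure Grad {G : Type} [Group G] {m : ℕ} (X : Fin m → Fin m → Subgroup G) : Prop where
  comm : ∀ i j k l, i ≠ j → k ≠ l → j ≠ k → i ≠ l → ∀ x ∈ X i j, ∀ y ∈ X k l, x * y = y * x
  gen : ∀ i j k, i ≠ j → j ≠ k → i ≠ k →
    X i k = Subgroup.closure {g | ∃ x ∈ X i j, ∃ y ∈ X j k, g = x * y * x⁻¹ * y⁻¹}

/-- the subgroup generated by the root subgroups -/
def gd {G : Type} [Group G] {m : ℕ} (X : Fin m → Fin m → Subgroup G) : Subgroup G :=
  Subgroup.closure {g | ∃ i j, i ≠ j ∧ g ∈ X i j}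

/-- the polynomial of the logarithm -/
noncomputable def lgP (n : ℕ) : Polynomial ℚ := Classical.choose (LG EXJ n)

theorem lgP_spec (n : ℕ) : Polynomial.X ^ 2 ∣ lgP n - Polynomial.X ∧
    (∀ N : MQ n, IsNilpotent N → IsNilpotent.exp (Polynomial.aeval N (lgP n)) = 1 + N) ∧
    (∀ Z : MQ n, IsNilpotent Z → Polynomial.aeval (IsNilpotent.exp Z - 1) (lgP n) = Z) :=
  Classical.choose_spec (LG EXJ n)

/-- the logarithm of a unipotent matrix -/
noncomputable def lg {n : ℕ} (g : SLZ n) : MQ n := Polynomial.aeval (qg g - 1) (lgP n)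

/-- `g` is unipotent -/
def Unp {n : ℕ} (g : SLZ n) : Prop := IsNilpotent (qg g - 1)

/-- the span of the logarithms of the elements `x ^ L`, `x ∈ X` -/
noncomputable def LS {n : ℕ} (X : Subgroup (SLZ n)) : Submodule ℚ (MQ n) :=
  Submodule.span ℚ {Z | ∃ x ∈ X, Z = lg (x ^ n.factorial)}

/-- a graded family of spaces of matrices -/
structure LGr {n m : ℕ} (a : Fin m → Fin m → Submodule ℚ (MQ n)) : Prop where
  comm : ∀ i j k l, i ≠ j → k ≠ l → j ≠ k → i ≠ l → ∀ A ∈ a i j, ∀ B ∈ a k l, A * B = B * A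
  gen : ∀ i j k, i ≠ j → j ≠ k → i ≠ k →
    a i k = Submodule.span ℚ {C | ∃ A ∈ a i j, ∃ B ∈ a j k, C = A * B - B * A}

/-- the Lie algebra generated by a graded family -/
def SS {n m : ℕ} (a : Fin m → Fin m → Submodule ℚ (MQ n)) : Submodule ℚ (MQ n) :=
  Submodule.span ℚ ({Z | ∃ i j, i ≠ j ∧ Z ∈ a i j} ∪
    {Z | ∃ i j, i ≠ j ∧ ∃ A ∈ a i j, ∃ B ∈ a j i, Z = A * B - B * A})

/-- row `r` -/
def rowS {n m : ℕ} (a : Fin m → Fin m → Submodule ℚ (MQ n)) (r : Fin m) : Submodule ℚ (MQ n) :=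
  Submodule.span ℚ {Z | ∃ j, r ≠ j ∧ Z ∈ a r j}

/-- column `r` -/
def colS {n m : ℕ} (a : Fin m → Fin m → Submodule ℚ (MQ n)) (r : Fin m) : Submodule ℚ (MQ n) :=
  Submodule.span ℚ {Z | ∃ i, i ≠ r ∧ Z ∈ a i r}

/-! ### Unipotent elements -/

/-- **QUN** (medium). A commutator which commutes with its two factors is quasi-unipotent. Proof. Over `K = AlgebraicClosure ℚ` (or `ℂ`) let `f` be the
endomorphism of `Kⁿ` given by `c`, and `E` its generalized eigenspace for `μ` (`Module.End.maxGenEigenspace`), `E ≠ 0`. `x`, `y` commute with `c`, so `x`, `y` and their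
inverses map `E` to `E`, and `f|E` is the commutator of the restrictions: `det (f|E) = 1`. As `f|E - μ` is nilpotent `det (f|E) = μ ^ dim E` (characteristic polynomial of a nilpotent
endomorphism; or `LinearMap.det` of `μ (1 + nilpotent)`). So `μ ^ dim E = 1`, and `dim E` divides `n !` : `μ ^ L = 1`. On `E` `f ^ L - 1 = f ^ L - μ ^ L` is a multiple of
`f - μ`, hence `(f ^ L - 1) ^ n = 0` on `E`. The `E` span (`Module.End.iSup_maxGenEigenspace_eq_top`), so `(f ^ L - 1) ^ n = 0`, and the same over `ℚ` (`Matrix.map` is injective). -/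
def QUN_stmt : Prop := ∀ (n : ℕ) (x y c : SLZ n), c = x * y * x⁻¹ * y⁻¹ → c * x = x * c → c * y = y * c →
  Unp (c ^ n.factorial)

/-- **LGF** (short/medium). Facts on the logarithm; from `lgP_spec`, `EXJ`, `EXC`. (1) `lg g = P(N)`, `N = qg g - 1`, `P = N + N² (..)` is a multiple of `N` (`X ∣ P`), so nilpotent, `exp = 1 + N`; a polynomial in `qg g` commutes with everything
commuting with `qg g`. (2) `lg g`, `lg h` commute (1), the sum is nilpotent, `exp (lg g + lg h) = qg g * qg h = qg (g * h)` (`IsNilpotent.exp_add_of_commute`), so `Unp` (EXJ, last part) and `lg (g h) = P(exp Z - 1) = Z`. (3) `exp (- lg g)` is the inverse of `exp (lg g)`;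
(4) by induction from (2), (5) EXC, `lg (x g x⁻¹) = P(exp Z' - 1)`, `Z' = x (lg g) x⁻¹`; (6) `qg g = exp (lg g) = exp (lg h) = qg h`. -/
def LGF_stmt : Prop := ∀ n : ℕ,
  (∀ g : SLZ n, Unp g → IsNilpotent (lg g) ∧ IsNilpotent.exp (lg g) = qg g ∧
    ∀ M : MQ n, M * qg g = qg g * M → M * lg g = lg g * M) ∧
  (∀ g h : SLZ n, Unp g → Unp h → g * h = h * g → Unp (g * h) ∧ lg (g * h) = lg g + lg h) ∧
  (∀ g : SLZ n, Unp g → Unp g⁻¹ ∧ lg g⁻¹ = -lg g) ∧
  (∀ g : SLZ n, Unp g → ∀ k : ℕ, Unp (g ^ k) ∧ lg (g ^ k) = (k : ℚ) • lg g) ∧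
  (∀ g x : SLZ n, Unp g → Unp (x * g * x⁻¹) ∧ lg (x * g * x⁻¹) = qg x * lg g * qg x⁻¹) ∧
  (∀ g h : SLZ n, Unp g → Unp h → lg g = lg h → g = h) ∧
  Unp (1 : SLZ n) ∧ lg (1 : SLZ n) = 0

/-- **GRU** (short). From QUN, LGF. Choose `j ≠ i, k`; by (G2) `X i k` is generated by commutators `c` of `x ∈ X i j`, `y ∈ X j k`, `c ∈ X i k`, and by (G1) `c` commutes with `x` and `y`: `Unp (c ^ L)`. `Subgroup.closure_induction` with
the elements of the abelian group `X i k` (`(g h) ^ L = g ^ L h ^ L`, LGF (2), (3)). -/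
def GRU_stmt : Prop := ∀ (n m : ℕ), 3 ≤ m → ∀ X : Fin m → Fin m → Subgroup (SLZ n), Grad X →
  ∀ i k, i ≠ k → ∀ g ∈ X i k, Unp (g ^ n.factorial)

/-- **ABG** (short). From LGF. `Submodule.span_induction`: `0 = lg (1 ^ L)`; sums: `k Z = lg (x ^ L)`, `l W = lg (y ^ L)`: `k l (Z + W) = lg (((x ^ l) (y ^ k)) ^ L)`; multiples by `p / q`: `k q (p / q) Z = p lg (x ^ L)` (`x ^ p`, or `x⁻¹`). -/
def ABG_stmt : Prop := ∀ (n : ℕ) (X : Subgroup (SLZ n)), (∀ x ∈ X, ∀ y ∈ X, x * y = y * x) →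
  (∀ x ∈ X, Unp (x ^ n.factorial)) → ∀ Z ∈ LS X, ∃ k : ℕ, 1 ≤ k ∧ ∃ x ∈ X, (k : ℚ) • Z = lg (x ^ n.factorial)

/-- **BRA** (medium). The bracket of two logarithms. From LGF. `a = x ^ L`, `b = y ^ L`, `A, B, C` the logarithms of `a`, `b`, `c ^ L`. `a b a⁻¹ = c ^ (L L) b` (`c` is central in the group generated by `x`, `y`), so by LGF (5), (2), (4) `qg a B qg a⁻¹ = B + L C`, and
`C` commutes with `A` and `B` (LGF (1) twice). So `exp (A) B = (B + L C) exp (A)`, by induction `exp (t A) B = (B + t L C) exp (t A)` for all `t : ℕ` (`exp (A) ^ t = exp (t A)`: EXJ). With `exp (t A) = ∑_{i < n} t ^ i A ^ i / i!` (`IsNilpotent.exp_eq_sum`)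
both sides are polynomials in `t`, entry by entry; the coefficients of `t` agree: `A B = B A + L C`. (Alternatively: `D = ad A` is nilpotent, `(exp D - 1) B = L C`, `D C = 0`, so `D (exp D - 1) B = 0`, `exp D - 1 = D U` with a unit `U` which commutes with `D`: `D² B = 0`, `D B = L C`.) -/
def BRA_stmt : Prop := ∀ (n L : ℕ) (x y c : SLZ n), c = x * y * x⁻¹ * y⁻¹ → c * x = x * c → c * y = y * c →
  Unp (x ^ L) → Unp (y ^ L) → Unp (c ^ L) →
  lg (x ^ L) * lg (y ^ L) - lg (y ^ L) * lg (x ^ L) = (L : ℚ) • lg (c ^ L)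

/-- **BR2** (medium). From GRU, LGF, ABG, BRA. `comm`: `x ^ L`, `y ^ L` commute, LGF (1) twice, bilinearity (`Submodule.span_induction`). `gen`, `≤`: for `g ∈ X i k` `lg (g ^ L)` is in the span of the brackets: `Subgroup.closure_induction` for (G2) (`g = c`: BRA, `lg (c ^ L) = L⁻¹ [lg x ^ L, lg y ^ L]`; products, inverses:
LGF (2), (3), `X i k` is abelian). `≥`: `A ∈ LS (X i j)`, `B ∈ LS (X j k)`: ABG, `k A = lg (x ^ L)`, `l B = lg (y ^ L)`, so `[A, B] = (k l)⁻¹ L lg (c ^ L)`, `c ∈ X i k`. -/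
def BR2_stmt : Prop := ∀ (n m : ℕ), 3 ≤ m → ∀ X : Fin m → Fin m → Subgroup (SLZ n), Grad X →
  LGr (fun i j => LS (X i j))

/-- **CJG** (short/medium). From GRU, LGF. By linearity `Z = lg (y ^ L)`, `y ∈ X i j`; `qg x Z qg x⁻¹ = lg ((x y x⁻¹) ^ L)` (LGF (5)). `x y x⁻¹ = u y` with `u = x y x⁻¹ y⁻¹`: `u = 1` if `X k l`, `X i j` commute; `l = i` (then `k ≠ j`): `u ∈ X k j`; `j = k` (then `l ≠ i`): `u⁻¹ ∈ X i l`, the commutator of `y` and `x`;
`u` commutes with `y` by (G1). So `(u y) ^ L = u ^ L y ^ L`, and `lg = lg (u ^ L) + lg (y ^ L)` (LGF (2)) is in `SS`. -/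
def CJG_stmt : Prop := ∀ (n m : ℕ), 3 ≤ m → ∀ X : Fin m → Fin m → Subgroup (SLZ n), Grad X →
  ∀ i j k l, i ≠ j → k ≠ l → ¬ (k = j ∧ l = i) → ∀ x ∈ X k l, ∀ Z ∈ LS (X i j),
    qg x * Z * qg x⁻¹ ∈ SS (fun i j => LS (X i j))

/-- **INF** (medium). An infinite abelian subgroup of `SL(n, ℤ)` has an element with `x ^ L ≠ 1`. Proof. Otherwise the reduction modulo `3` is injective on `X`: let `g ∈ X`, `g = 1 + 3 M`, `g ^ L = 1`, `g ≠ 1`; a power `h ≠ 1` of `g` has prime order `p`, `h = 1 + 3 ^ k M`, `k ≥ 1`, `M` not divisible by `3`.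
`h ^ p = 1 + p 3 ^ k M + (p choose 2) 3 ^ (2 k) M² + ..= 1`: for `p ≠ 3` `p M = - 3 ^ k (..)`, a contradiction; for `p = 3`: `M + 3 ^ k M² + 3 ^ (2 k - 1) M³ = 0`, a contradiction. (`SL(n, ZMod 3)` is finite. Compare `exists_pow_cong`.) -/
def INF_stmt : Prop := ∀ (n L : ℕ), 1 ≤ L → ∀ X : Subgroup (SLZ n), (X : Set (SLZ n)).Infinite → ∃ x ∈ X, x ^ L ≠ 1

/-! ### Linear algebra -/

/-- **LIE** (medium; only matrices). (T): `[Z, [A, B]] ∈ a k l` for `Z ∈ a k l`, `A ∈ a i j`, `B ∈ a j i`. Proof of (T). Case `{k, l} ≠ {i, j}`: `[Z, [A, B]] = [[Z, A], B] + [A, [Z, B]]`. `[Z, A]`: it is `0` unless `l = i` (then `k ≠ j`, `[Z, A] ∈ a k j`, `[[Z, A], B] ∈ a k i = a k l`) or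
`k = j` (then `l ≠ i`, `[Z, A] = - [A, Z] ∈ a i l`, `[[Z, A], B] = - [B, [Z, A]] ∈ a j l = a k l`); in the same way (exchange `i` and `j`) `[A, [Z, B]] ∈ a k l`. Case `{k, l} = {i, j}`: choose `p ≠ k, l`; `Z` is a linear combination of `[U, V]`, `U ∈ a k p`, `V ∈ a p l`;
`[[U, V], D] = [[U, D], V] + [U, [V, D]]`, and `[U, D] ∈ a k p`, `[V, D] ∈ a p l` by the first case. (Lie): `[a k l, SS] ≤ SS`: for `a i j`: `0`, `a k j`, `a i l`, or by definition (opposite); for `[A, B]` by (T). Then `[[A, B], W] = [A, [B, W]] - [B, [A, W]]` is in `SS` for `W ∈ SS`. -/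
def LIE_stmt : Prop := ∀ (n m : ℕ), 3 ≤ m → ∀ a : Fin m → Fin m → Submodule ℚ (MQ n), LGr a →
  (∀ i j k l, i ≠ j → k ≠ l → ∀ Z ∈ a k l, ∀ A ∈ a i j, ∀ B ∈ a j i,
    Z * (A * B - B * A) - (A * B - B * A) * Z ∈ a k l) ∧
  ∀ U ∈ SS a, ∀ V ∈ SS a, U * V - V * U ∈ SS a

/-- **NRM** (short/medium). From BR2, CJG, LIE. By `Subgroup.closure_induction` it is enough to treat `g ∈ X k l` (for inverses: `X k l` is a subgroup; use the closure of a set stable under inverses, or that `Z ↦ g Z g⁻¹` is injective on the finite dimensional space `SS`). `Z ∈ a i j`: CJG if `(k, l) ≠ (j, i)`; otherwise `a i j` is spanned by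
`[U, V]`, `U ∈ a i p`, `V ∈ a p j`, `g [U, V] g⁻¹ = [g U g⁻¹, g V g⁻¹]`, both factors are in `SS` by CJG, and LIE. `Z = [A, B]`: the same with the first part. -/
def NRM_stmt : Prop := ∀ (n m : ℕ), 3 ≤ m → ∀ X : Fin m → Fin m → Subgroup (SLZ n), Grad X →
  ∀ g ∈ gd X, ∀ Z ∈ SS (fun i j => LS (X i j)), qg g * Z * qg g⁻¹ ∈ SS (fun i j => LS (X i j))

/-- **ZAR** (short). For a linear functional `φ` of `MQ n` which vanishes on `S` the function `g ↦ φ (qg g * Z * qg g⁻¹)` is `IsPolyQ` (`IsPolyQ.entry`, `IsPolyQ.entry_inv`, ..) and vanishes on `D`, so everywhere (`IsPolyQ.dense`); and `S` is the intersection of the kernels of these functionals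
(`Submodule.exists_le_ker_of_notMem`, `Submodule.exists_dual_map_eq_bot_of_notMem`). -/
def ZAR_stmt : Prop := ∀ (n : ℕ) (D : Subgroup (SLZ n)), ZDense D → ∀ S : Submodule ℚ (MQ n),
  (∀ g ∈ D, ∀ Z ∈ S, qg g * Z * qg g⁻¹ ∈ S) → ∀ (g : SLZ n), ∀ Z ∈ S, qg g * Z * qg g⁻¹ ∈ S

/-- **ADI** (short/medium). `E = E_kl`, `k ≠ l`, `g = 1 + E` (`tv`), `g⁻¹ = 1 - E` : `g M g⁻¹ = M + [E, M] - E M E`, `g⁻¹ M g = M - [E, M] - E M E`. So `[E, M] ∈ S` and `E M E = M_lk E ∈ S` for `M ∈ S`. `N` has an entry `N_lk ≠ 0`, `l ≠ k` (a diagonal nilpotent matrix is `0`): `E_kl ∈ S`. With the brackets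
(`[E_ik, E_kl] = E_il`, `[E_kl, E_lj] = E_kj`, `n ≥ 3`) all `E_ij ∈ S`, `i ≠ j`, and `E_ii - E_jj = [E_ij, E_ji] ∈ S`: all matrices of trace `0`. -/
def ADI_stmt : Prop := ∀ n : ℕ, 3 ≤ n → ∀ S : Submodule ℚ (MQ n), (∀ (g : SLZ n), ∀ Z ∈ S, qg g * Z * qg g⁻¹ ∈ S) →
  ∀ N ∈ S, IsNilpotent N → N ≠ 0 → ∀ M : MQ n, M.trace = 0 → M ∈ S

/-- **NCM** (short/medium). Commuting nilpotent matrices. Proof. `span S` is spanned by a finite subset `t` of `S`. In the commutative algebra `Algebra.adjoin ℚ S` (`Algebra.adjoinCommRingOfComm`) the ideal `J` generated by `t` is finitely generated and in the nilradical, so `J ^ N = 0`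
(`Ideal.FG.isNilpotent_iff_le_nilradical` or similar), and a product of `≥ N` elements of `span S` is in `J ^ N`. (Or directly: such a product is a combination of products of elements of `t`; if `N = n |t|` one factor occurs `n` times.) -/
def NCM_stmt : Prop := ∀ (n : ℕ) (S : Set (MQ n)), (∀ A ∈ S, ∀ B ∈ S, A * B = B * A) → (∀ A ∈ S, IsNilpotent A) →
  ANil (Submodule.span ℚ S)

/-- **CNT** (medium). From LIE and `COM` (landed). `W = {w : X w = 0 for all X ∈ rowS a r}`: `W ≠ 0` (COM), `W ≠ ⊤` (`a r j ≠ ⊥`). `P = {Y : Y W ≤ W}` (a subspace of `MQ n`). Claim `SS a ≤ colS a r ⊔ P`: `a r j ≤ P` (kills `W`), `a i r ≤ colS`. `a i j`, `i, j ≠ r`: for `w ∈ W`, `X ∈ a r k`: `X Y w = Y X w + [X, Y] w` and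
`[X, Y]` is `0` or (`k = i`) in `a r j`. `[A, B]`, `A ∈ a i j`, `B ∈ a j i`, `i, j ≠ r`: both factors are in `P`. `D = [A, B]`, `A ∈ a r j`, `B ∈ a j r` (or exchanged): `X D w = [X, D] w + D X w = 0` by (T). Let `K = {T : W → ℚⁿ / W}` (linear maps), `θ : MQ n → K`, `Y ↦ (w ↦ Y w mod W)`, kernel `P`. `θ` restricted to the matrices
of trace `0` is onto (`T' : W → C`, `C` a complement, extended by `0` on `C`: trace `0`), so `θ (colS a r) = K`, `finrank (colS a r) ≥ dim W (n - dim W) ≥ n - 1`. -/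
def CNT_stmt : Prop := ∀ (n m : ℕ), 1 ≤ n → 3 ≤ m → ∀ (a : Fin m → Fin m → Submodule ℚ (MQ n)) (r : Fin m), LGr a →
  (∀ M : MQ n, M.trace = 0 → M ∈ SS a) → ANil (rowS a r) → (∃ j, r ≠ j ∧ a r j ≠ ⊥) →
  n - 1 ≤ Module.finrank ℚ (colS a r)

/-- **LAT** (short/medium). From GRU, LGF, ABG, NCM. `A` is the subgroup generated by the `x ^ L`, `x ∈ X i r`, `i ≠ r`; these elements commute ((G1): `(i, r)`, `(k, r)`) and `A ≤ gd X`. The first claim: NCM for the set of the `lg (x ^ L)` (commuting, nilpotent; `colS` is its span). Second claim: `Z` is a sum of `Z_i ∈ LS (X i r)`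
(or induction over the span), `k_i Z_i = lg (x_i ^ L)` (ABG), `k = ∏ k_i`; products of commuting elements (LGF (2), (4)), `exp (lg a) = qg a`. Third claim: closure induction: `a` unipotent, `lg a ∈ colS`. -/
def LAT_stmt : Prop := ∀ (n m : ℕ), 3 ≤ m → ∀ X : Fin m → Fin m → Subgroup (SLZ n), Grad X → ∀ r : Fin m,
  ANil (rowS (fun i j => LS (X i j)) r) ∧
  ∃ A : Subgroup (SLZ n), A ≤ gd X ∧ ANil (colS (fun i j => LS (X i j)) r) ∧
    (∀ Z ∈ colS (fun i j => LS (X i j)) r, ∃ k : ℕ, 1 ≤ k ∧ ∃ a ∈ A, qg a = IsNilpotent.exp ((k : ℚ) • Z)) ∧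
    ∀ a ∈ A, ∃ Z ∈ colS (fun i j => LS (X i j)) r, qg a = IsNilpotent.exp Z

/-! ### The end -/

/-- **CRE** (assembly, helper22). From BR2, INF, NRM, ZAR, ADI, CNT, LAT, LGF, GRU and `UH.FIN`. -/
def CRE_stmt : Prop := ∀ (n m : ℕ), 3 ≤ n → 3 ≤ m → ∀ X : Fin m → Fin m → Subgroup (SLZ n), Grad X →
  ZDense (gd X) → (∃ i j, i ≠ j ∧ (X i j : Set (SLZ n)).Infinite) → ∀ H : Subgroup (SLZ n), gd X ≤ H → H.FiniteIndex

/-- **CNV** (short/medium). `SL(n, ℤ)` is graded: `X i j` = the group of the `1 + t E_ij`, `t : ℤ` (transvections, `tv`); the commutator of `1 + s E_ij` and `1 + t E_jk` is `1 + s t E_ik`. They generate (`ES_univ`, Pool/Agent/helper48/SLn/Gen.lean). -/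
def CNV_stmt : Prop := ∀ n : ℕ, 3 ≤ n → ∃ X : Fin n → Fin n → Subgroup (SLZ n), Grad X ∧
  (∀ i j, i ≠ j → (X i j : Set (SLZ n)).Infinite) ∧ gd X = ⊤

end Pool.Agent.RG9
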