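import Pool.Agent.helper22.RG9.Spec

/-!
# Project rg9 (MP_a2a22c_al), part 2: homomorphisms of subgroups of FINITE INDEX of (weakly) graded groups

Generalisation of the first part (all its rows are landed: `QUN, LGF, GRU, ABG, BRA, BR2, CJG, INF, LIE, NRM, ZAR, ADI, NCM, CNT, LAT`; the files of
the rows with the same name without the digit are good models, most of the proofs can be copied). Let `D` be a group which is generated by a weak grading `X`
(`WG N X`), `K` a normal subgroup of finite index of `D`, `x ^ k ∈ K` for all `x`, and `φ : K → SL(n, ℤ)` with Zariski dense image. Put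
`F x = φ (x ^ k)`, and `F^d y = F (d y d⁻¹)` for `d ∈ D`. These are `power representations` (`PR`). `W i j = im F (X i j)` is a weak grading with the exponent
`N k` of the group which it generates in `SL(n, ℤ)`. The Lie algebra `SS` of the logarithms for `F^d` does not depend on `d` (CJ2, NR2), and for
`δ ∈ K` it is the conjugate by `φ δ` of the one for `F` (CN2); so it is normalised by `φ K`.

RULES: as in `Spec.lean`: file `Pool/Agent/<seat>/RG9/XX.lean`, `import Pool.Agent.helper22.RG9.Spec2`, `set_option autoImplicit false`, namespace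
`Pool.Agent.RG9`, `open Matrix Pool.Agent.H48SL Pool.Agent.UG`, auxiliary lemmas with the prefix `XX_`; other rows (of both parts) only as hypotheses.
-/

set_option autoImplicit false

namespace Pool.Agent.RG9

open Matrix Pool.Agent.H48SL Pool.Agent.UG

/-- weak gradings with the exponent `N` -/
structure WG {G : Type} [Group G] {m : ℕ} (N : ℕ) (X : Fin m → Fin m → Subgroup G) : Prop where
  comm : ∀ i j k l, i ≠ j → k ≠ l → j ≠ k → i ≠ l → ∀ x ∈ X i j, ∀ y ∈ X k l, x * y = y * x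
  sub : ∀ i j k, i ≠ j → j ≠ k → i ≠ k → ∀ x ∈ X i j, ∀ y ∈ X j k, x * y * x⁻¹ * y⁻¹ ∈ X i k
  pow : ∀ i j k, i ≠ j → j ≠ k → i ≠ k → ∀ g ∈ X i k,
    g ^ N ∈ Subgroup.closure {g | ∃ x ∈ X i j, ∃ y ∈ X j k, g = x * y * x⁻¹ * y⁻¹}

/-- the span of the logarithms of the elements `x ^ E`, `x ∈ X` -/
noncomputable def LE {n : ℕ} (E : ℕ) (X : Subgroup (SLZ n)) : Submodule ℚ (MQ n) :=
  Submodule.span ℚ {Z | ∃ x ∈ X, Z = lg (x ^ E)}

/-- power representations -/
structure PR {D : Type} [Group D] {n : ℕ} (k : ℕ) (F : D → SLZ n) : Prop where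
  mul : ∀ x y, x * y = y * x → F (x * y) = F x * F y
  com : ∀ x y c, c = x * y * x⁻¹ * y⁻¹ → c * x = x * c → c * y = y * c →
    F x * F y * (F x)⁻¹ * (F y)⁻¹ = F c ^ k

/-- the group generated by the image of `X` -/
def im {D : Type} [Group D] {n : ℕ} (F : D → SLZ n) (X : Subgroup D) : Subgroup (SLZ n) :=
  Subgroup.closure (F '' (X : Set D))

/-- **GR2** (short; copy of GRU). From QUN, LGF. `c = x y x⁻¹ y⁻¹ ∈ X i k` commutes with `x`, `y`: `Unp (c ^ L)`, `L = n !`; by closure induction `Unp (h ^ L)` for all `h` in the group generated by these `c` (a subgroup of the abelian group `X i k`); `g ^ (N L) = (g ^ N) ^ L`. -/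
def GR2_stmt : Prop := ∀ (n m N : ℕ), 3 ≤ m → ∀ X : Fin m → Fin m → Subgroup (SLZ n), WG N X →
  ∀ i k, i ≠ k → ∀ g ∈ X i k, Unp (g ^ (N * n.factorial))

/-- **AB2** (short; copy of ABG with `E` in the place of `n !`). From LGF. -/
def AB2_stmt : Prop := ∀ (n E : ℕ) (X : Subgroup (SLZ n)), (∀ x ∈ X, ∀ y ∈ X, x * y = y * x) →
  (∀ x ∈ X, Unp (x ^ E)) → ∀ Z ∈ LE E X, ∃ k : ℕ, 1 ≤ k ∧ ∃ x ∈ X, (k : ℚ) • Z = lg (x ^ E)

/-- **BR3** (short/medium; copy of BR2). From GR2, LGF, AB2, BRA (with `L := E = N n !`). `gen`, `≤`: `lg (g ^ E) = N⁻¹ lg ((g ^ N) ^ E)` (`(g ^ N) ^ E = (g ^ E) ^ N`, LGF (4)), and `lg (h ^ E)` is in the span of the brackets for `h` in the group generated by the commutators. `≥`: `WG.sub`. -/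
def BR3_stmt : Prop := ∀ (n m N : ℕ), 3 ≤ m → 1 ≤ N → ∀ X : Fin m → Fin m → Subgroup (SLZ n), WG N X →
  LGr (fun i j => LE (N * n.factorial) (X i j))

/-- **LA2** (short; copy of LAT with `E = N n !` in the place of `n !`). From GR2, LGF, AB2, NCM. -/
def LA2_stmt : Prop := ∀ (n m N : ℕ), 3 ≤ m → 1 ≤ N → ∀ X : Fin m → Fin m → Subgroup (SLZ n), WG N X → ∀ r : Fin m,
  ANil (rowS (fun i j => LE (N * n.factorial) (X i j)) r) ∧
  ∃ A : Subgroup (SLZ n), A ≤ gd X ∧ ANil (colS (fun i j => LE (N * n.factorial) (X i j)) r) ∧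
    (∀ Z ∈ colS (fun i j => LE (N * n.factorial) (X i j)) r, ∃ k : ℕ, 1 ≤ k ∧ ∃ a ∈ A, qg a = IsNilpotent.exp ((k : ℚ) • Z)) ∧
    ∀ a ∈ A, ∃ Z ∈ colS (fun i j => LE (N * n.factorial) (X i j)) r, qg a = IsNilpotent.exp Z

/-- **IMG** (short; pure). The first part: `F 1 = 1` (`F (1 * 1)`), `F (x⁻¹) = (F x)⁻¹`, closure induction (`X` abelian). Second part: conjugation by `d` is an automorphism of `D`. -/
def IMG_stmt : Prop := ∀ (D : Type) [Group D] (n k : ℕ) (F : D → SLZ n), PR k F →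
  (F 1 = 1 ∧ (∀ x, F x⁻¹ = (F x)⁻¹) ∧ ∀ (x : D) (t : ℕ), F (x ^ t) = F x ^ t) ∧
  (∀ X : Subgroup D, (∀ x ∈ X, ∀ y ∈ X, x * y = y * x) → ∀ g ∈ im F X, ∃ x ∈ X, g = F x) ∧
  ∀ d : D, PR k (fun y => F (d * y * d⁻¹))

/-- **WGI** (short/medium; pure). From IMG. `comm`: `F x F y = F (x y) = F (y x) = F y F x`. `sub`: `c = x y x⁻¹ y⁻¹ ∈ X i k` commutes with `x`, `y`, `PR.com`. `pow`: `g = F x`, `x ∈ X i k`; `g ^ (N k) = F (x ^ N) ^ k`, and `F h ^ k` is in the group generated by the commutators of the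
elements of `im F (X i j)`, `im F (X j k)` for all `h` in the group generated by the commutators `c` (closure induction; these `h` are in the abelian group `X i k`; `F c ^ k` = a commutator by `PR.com`). -/
def WGI_stmt : Prop := ∀ (D : Type) [Group D] (n m N k : ℕ), 3 ≤ m → ∀ (F : D → SLZ n), PR k F →
  ∀ X : Fin m → Fin m → Subgroup D, WG N X → WG (N * k) (fun i j => im F (X i j))

/-- **CJ2** (short/medium; model: CJG). From IMG, WGI, GR2, LGF; `E = N k n !`. It is enough to treat `lg (g ^ E)`, `g ∈ im (F^x) (X i j)`: `g = F (x y x⁻¹)`, `y ∈ X i j` (IMG). `x y x⁻¹ = u y`, `u = x y x⁻¹ y⁻¹ ∈ X p j` (`q = i`), or `u⁻¹ ∈ X i q` (`p = j`), or `u = 1`; `u` commutes with `y`.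
`F (u y) = F u * F y`, commuting, so `g ^ E = F u ^ E * F y ^ E` and `lg (g ^ E) = lg (F u ^ E) + lg (F y ^ E)` (LGF (2)); both are in `SS`. -/
def CJ2_stmt : Prop := ∀ (D : Type) [Group D] (n m N k : ℕ), 3 ≤ m → ∀ (F : D → SLZ n), PR k F →
  ∀ X : Fin m → Fin m → Subgroup D, WG N X → ∀ i j p q, i ≠ j → p ≠ q → ¬ (p = j ∧ q = i) → ∀ x ∈ X p q,
    LE (N * k * n.factorial) (im (fun y => F (x * y * x⁻¹)) (X i j)) ≤
      SS (fun i j => LE (N * k * n.factorial) (im F (X i j)))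

/-- **NR2** (short/medium; model: NRM). From IMG, WGI, BR3, CJ2, LIE; `E = N k n !`. First `d = x ∈ X p q` and every `F`: for `(i, j) ≠ (q, p)` CJ2; `LE E (im (F^x) (X q p))` is spanned by the brackets of `LE E (im (F^x) (X q r))` and `LE E (im (F^x) (X r p))`, `r ≠ p, q` (BR3 for `F^x`, which is `PR k` by IMG, and WGI), and `SS` for `F` is a Lie algebra
(LIE). Then the generators of `SS` for `F^x` of the second kind (brackets) too. General `d`: closure induction for the property `for all F with PR k F : SS (F^d) ≤ SS F and SS (F^(d⁻¹)) ≤ SS F`: `F^(a b) = (F^a)^b`. -/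
def NR2_stmt : Prop := ∀ (D : Type) [Group D] (n m N k : ℕ), 3 ≤ m → 1 ≤ N → 1 ≤ k → ∀ (F : D → SLZ n), PR k F →
  ∀ X : Fin m → Fin m → Subgroup D, WG N X → ∀ d ∈ gd X,
    SS (fun i j => LE (N * k * n.factorial) (im (fun y => F (d * y * d⁻¹)) (X i j))) ≤
      SS (fun i j => LE (N * k * n.factorial) (im F (X i j)))

/-- **CN2** (short). From LGF (5): `g (lg (x ^ E)) g⁻¹ = lg ((g x g⁻¹) ^ E)`; linearity; brackets. -/
def CN2_stmt : Prop := ∀ (n m E : ℕ) (X Y : Fin m → Fin m → Subgroup (SLZ n)) (g : SLZ n),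
  (∀ i j, i ≠ j → ∀ x ∈ X i j, Unp (x ^ E) ∧ g * x * g⁻¹ ∈ Y i j) →
    ∀ Z ∈ SS (fun i j => LE E (X i j)), qg g * Z * qg g⁻¹ ∈ SS (fun i j => LE E (Y i j))

/-- **PRK** (short; pure). `(x y) ^ k = x ^ k y ^ k` for commuting `x`, `y`; `x ^ k y ^ k x ^ (-k) y ^ (-k) = c ^ (k k)` if `c = x y x⁻¹ y⁻¹` commutes with `x` and `y`; `(δ y δ⁻¹) ^ k = δ y ^ k δ⁻¹`. -/
def PRK_stmt : Prop := ∀ (D : Type) [Group D] (n k : ℕ) (K : Subgroup D) (hk : ∀ x : D, x ^ k ∈ K) (φ : K →* SLZ n),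
  PR k (fun x : D => φ ⟨x ^ k, hk x⟩) ∧
  ∀ (δ : K) (y : D), φ ⟨((δ : D) * y * (δ : D)⁻¹) ^ k, hk _⟩ = φ δ * φ ⟨y ^ k, hk y⟩ * (φ δ)⁻¹

/-- **CR2** (assembly, helper22). -/
def CR2_stmt : Prop := ∀ (n m N k : ℕ), 3 ≤ n → 3 ≤ m → 1 ≤ N → 1 ≤ k → ∀ (D : Type) [Group D] (X : Fin m → Fin m → Subgroup D), WG N X →
  gd X = ⊤ → ∀ (K : Subgroup D), (∀ x : D, x ^ k ∈ K) → ∀ φ : K →* SLZ n, ZDense φ.range →
    (∃ i j, i ≠ j ∧ ∃ x : K, (x : D) ∈ X i j ∧ φ x ^ (k * (N * k * n.factorial)) ≠ 1) → φ.range.FiniteIndex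

end Pool.Agent.RG9
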