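import Pool.Agent.helper22.RG9.Spec2

/-!
# Project rg9 (MP_a2a22c_al), part 3: Zariski dense subgroups which CONTAIN a graded group (no normality)

THEOREM. Let `n - 1 ≤ m (m - 1) / 2`, `n, m ≥ 3`. A Zariski dense subgroup `H` of `SL(n, ℤ)` which contains the image (infinite on a root subgroup) of a
subgroup of finite index of a group graded by `A_(m-1)` has finite index. Proof. The upper triangular root subgroups generate (up to powers) a unipotent group
whose space of logarithms contains a copy of the strictly upper triangular `m × m` matrices, so of dimension `≥ m (m - 1) / 2`; `UH.FIN`.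

RULES: as in `Spec.lean`: file `Pool/Agent/<seat>/RG9/XX.lean`, `import Pool.Agent.helper22.RG9.Spec3`, `set_option autoImplicit false`, namespace
`Pool.Agent.RG9`, `open Matrix Pool.Agent.H48SL Pool.Agent.UG`, auxiliary lemmas with the prefix `XX_`; other rows (of all parts) only as hypotheses.
-/

set_option autoImplicit false

namespace Pool.Agent.RG9

open Matrix Pool.Agent.H48SL Pool.Agent.UG

/-- a family with the brackets of the strictly upper triangular matrix units -/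
structure Chn {n m : ℕ} (a : Fin m → Fin m → Submodule ℚ (MQ n)) (Z : Fin m → Fin m → MQ n) : Prop where
  mem : ∀ i j, i < j → Z i j ∈ a i j
  br : ∀ i j k, i < j → j < k → Z i j * Z j k - Z j k * Z i j = Z i k
  ne : ∀ i j, i < j → Z i j ≠ 0

/-- **CHN** (medium). (1) `a i k ≠ ⊥` implies `a i j ≠ ⊥` and `a j k ≠ ⊥` for `j ≠ i, k` (`LGr.gen`), so all `a i j`, `i ≠ j`, are `≠ ⊥` (`m ≥ 3`). (2) For `Y : ℕ → MQ n` with `Y i ∈ a i (i + 1)` put `W i 0 = Y i`, `W i (d + 1) = Y i * W (i + 1) d - W (i + 1) d * Y i`; `W i d ∈ a i (i + d + 1)` (as long as `i + d + 1 < m`).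
`[W i d, W (i + d + 1) e] = W i (d + e + 1)` by induction on `d`: `[[Y i, W (i + 1) d], V] = [Y i, [W (i + 1) d, V]] - [W (i + 1) d, [Y i, V]]` and `[Y i, V] = 0` for `V ∈ a (i + d + 2) _` (`LGr.comm`). (3) `a i (i + d + 1)` is the span of the `W i d`, all `Y` (induction on `d`; `LGr.gen` with the middle index `i + 1`; `W (i + 1) d` does
not depend on `Y i`). As `a 0 (m - 1) ≠ ⊥` some `W 0 (m - 2)` is `≠ 0`; it is an iterated bracket of every `W i d`, so these are `≠ 0`. `Z i j = W i (j - i - 1)`. -/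
def CHN_stmt : Prop := ∀ (n m : ℕ), 3 ≤ m → ∀ a : Fin m → Fin m → Submodule ℚ (MQ n), LGr a → (∃ i j, i ≠ j ∧ a i j ≠ ⊥) →
  ∃ Z : Fin m → Fin m → MQ n, Chn a Z

/-- **LIN** (short/medium). Let `∑ c_kl Z_kl = 0` (`k < l`). For `0 < i < j < m - 1` bracket with `Z_0i` on the left and then with `Z_j(m-1)` on the right: `[Z_0i, Z_kl]` is `Z_0l` if `k = i` and `0` otherwise (`LGr.comm`: `i ≠ k`, `0 ≠ l`), `[Z_0l, Z_j(m-1)]` is `Z_0(m-1)` if `l = j` and `0` otherwise; so `c_ij = 0`. If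
`i = 0` or `j = m - 1` leave out the first resp. the second bracket (and use the coefficients which are already known to be `0`): `[Z_kl, Z_j(m-1)]` is `Z_k(m-1)` if `l = j`, `0` otherwise. (Or any other way.) -/
def LIN_stmt : Prop := ∀ (n m : ℕ) (a : Fin m → Fin m → Submodule ℚ (MQ n)) (Z : Fin m → Fin m → MQ n), 3 ≤ m → LGr a → Chn a Z →
  LinearIndependent ℚ (fun p : {p : Fin m × Fin m // p.1 < p.2} => Z p.1.1 p.1.2)

/-- **ANL** (short/medium; pure). All products of `≥ M` elements of `𝔟`, of `≥ N` elements of `𝔠` vanish (`M, N ≥ 1`). A product of `≥ M N` (or `(M + 1) (N + 1)`) elements, each in `𝔟` or in `𝔠`, vanishes: `C B = B C + [C, B]` with `[C, B] ∈ 𝔟`, so a word with `s` letters of `𝔟` is a combination of products of `s` elements of `𝔟` (to the left) and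
elements of `𝔠`; it vanishes if `s ≥ M`; if `s < M` the word contains `N` consecutive letters of `𝔠`. Elements of `𝔟 ⊔ 𝔠` are sums of such letters. -/
def ANL_stmt : Prop := ∀ (n : ℕ) (𝔟 𝔠 : Submodule ℚ (MQ n)), ANil 𝔟 → ANil 𝔠 → (∀ C ∈ 𝔠, ∀ B ∈ 𝔟, C * B - B * C ∈ 𝔟) →
  ANil (𝔟 ⊔ 𝔠)

/-- **ANU** (short/medium). From NCM, ANL. `𝔲_c` = span of the `a i j`, `i < j`, `c ≤ j`; `𝔲_m = ⊥`. `𝔠` = span of the `a i c`, `i < c`: commuting nilpotent elements, `ANil` (NCM). `[𝔠, 𝔲_(c+1)] ≤ 𝔲_(c+1)`: for `i < c`, `k < j`, `c < j`: `a i c`, `a k j` commute if `c ≠ k` (as `i ≠ j`), and `[a i c, a c j] ≤ a i j`. ANL: `𝔲_c = 𝔲_(c+1) ⊔ 𝔠`. -/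
def ANU_stmt : Prop := ∀ (n m : ℕ), 3 ≤ m → ∀ a : Fin m → Fin m → Submodule ℚ (MQ n), LGr a →
  (∀ i j, i ≠ j → ∀ A ∈ a i j, IsNilpotent A) → ANil (Submodule.span ℚ {Z | ∃ i j, i < j ∧ Z ∈ a i j})

/-- **UNG** (short/medium). From LGF. Let `𝔑` be the span of all products of `≥ 1` elements of `𝔲`. `𝔑 𝔑 ≤ 𝔑`, every element of `𝔑` is nilpotent (its `N`-th power is a combination of products of `≥ N` elements of `𝔲`), `qg x = exp (lg x) ∈ 1 + 𝔑`, `qg x⁻¹ = exp (- lg x) ∈ 1 + 𝔑` for `x ∈ S`; closure induction: `qg g ∈ 1 + 𝔑` and `qg g⁻¹ ∈ 1 + 𝔑` for `g ∈ closure S`. -/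
def UNG_stmt : Prop := ∀ (n : ℕ) (𝔲 : Submodule ℚ (MQ n)), ANil 𝔲 → ∀ S : Set (SLZ n), (∀ x ∈ S, Unp x ∧ lg x ∈ 𝔲) →
  ∀ g ∈ Subgroup.closure S, Unp g

/-- **RKH** (assembly, helper22). -/
def RKH_stmt : Prop := ∀ (n m N : ℕ), 3 ≤ n → 3 ≤ m → 1 ≤ N → n - 1 ≤ m * (m - 1) / 2 → ∀ X : Fin m → Fin m → Subgroup (SLZ n), WG N X →
  (∃ i j, i ≠ j ∧ ∃ x ∈ X i j, x ^ (N * n.factorial) ≠ 1) → ∀ H : Subgroup (SLZ n), gd X ≤ H → ZDense H → H.FiniteIndex

end Pool.Agent.RG9
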